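import Pool.Agent.Helper89.GC.Defs

set_option autoImplicit false

/-!
Piece G9a.  Irreducibility of the generic member of the quadratic family over `ℂ(T)`.

Proof.  (1) `P = E T ^ 2 + 2 B T + A` is irreducible in `Polynomial P3`: a factor of degree `0` in
`T` divides `A` and `E`, so it is a unit; a factorisation `(a + b T) (c + d T)` gives
`(2 B) ^ 2 - 4 A E = (a d - b c) ^ 2`, so `B ^ 2 - A E` is a square.
(2) The ring isomorphism exchanging the variables sends `P` to
`F₀ = A + 2 T B + T ^ 2 E` in `MvPolynomial (Fin 3) (Polynomial ℂ)`, which is irreducible, hence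
prime.
(3) `MvPolynomial (Fin 3) (FractionRing (Polynomial ℂ))` is the localisation of
`MvPolynomial (Fin 3) (Polynomial ℂ)` at the nonzero elements of `Polynomial ℂ`, and `F₀` divides
none of them, since it vanishes at `x = 0`: so it stays prime.
-/

namespace Pool.Agent.Helper89.GC

open MvPolynomial Pool.Agent.Helper29.HP

attribute [local instance] MvPolynomial.algebraMvPolynomial

namespace G9a

/-- the quadratic polynomial over the ring of ternary forms -/
noncomputable def PP (A B E : P3) : Polynomial P3 :=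
  Polynomial.C A + Polynomial.C (2 * B) * Polynomial.X + Polynomial.C E * Polynomial.X ^ 2

theorem quad_coeff0 (u v w : P3) : (Polynomial.C u + Polynomial.C v * Polynomial.X +
    Polynomial.C w * Polynomial.X ^ 2).coeff 0 = u := by
  rw [Polynomial.coeff_add, Polynomial.coeff_add, Polynomial.coeff_C_mul, Polynomial.coeff_C_mul,
    Polynomial.coeff_C, Polynomial.coeff_X, Polynomial.coeff_X_pow]
  simp

theorem quad_coeff1 (u v w : P3) : (Polynomial.C u + Polynomial.C v * Polynomial.X +
    Polynomial.C w * Polynomial.X ^ 2).coeff 1 = v := by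
  rw [Polynomial.coeff_add, Polynomial.coeff_add, Polynomial.coeff_C_mul, Polynomial.coeff_C_mul,
    Polynomial.coeff_C, Polynomial.coeff_X, Polynomial.coeff_X_pow]
  simp

theorem quad_coeff2 (u v w : P3) : (Polynomial.C u + Polynomial.C v * Polynomial.X +
    Polynomial.C w * Polynomial.X ^ 2).coeff 2 = w := by
  rw [Polynomial.coeff_add, Polynomial.coeff_add, Polynomial.coeff_C_mul, Polynomial.coeff_C_mul,
    Polynomial.coeff_C, Polynomial.coeff_X, Polynomial.coeff_X_pow]
  simp

theorem PP_coeff0 (A B E : P3) : (PP A B E).coeff 0 = A := quad_coeff0 _ _ _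

theorem PP_coeff1 (A B E : P3) : (PP A B E).coeff 1 = 2 * B := quad_coeff1 _ _ _

theorem PP_coeff2 (A B E : P3) : (PP A B E).coeff 2 = E := quad_coeff2 _ _ _

theorem PP_natDegree {A B E : P3} (hE0 : E ≠ 0) : (PP A B E).natDegree = 2 := by
  unfold PP
  compute_degree!

theorem isUnit_of_dvd {A B E g : P3} (hrel : IsRelPrime A E)
    (h : Polynomial.C g ∣ PP A B E) : IsUnit g := by
  rw [Polynomial.C_dvd_iff_dvd_coeff] at h
  refine hrel ?_ ?_
  · have := h 0
    rwa [PP_coeff0] at this
  · have := h 2
    rwa [PP_coeff2] at this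

theorem isSquare_of_mul {A B E a b c d : P3} (h0 : A = a * c) (h1 : 2 * B = a * d + b * c)
    (h2 : E = b * d) : IsSquare (B ^ 2 - A * E) := by
  refine ⟨C (1 / 2 : ℂ) * (a * d - b * c), ?_⟩
  have hc : (C (1 / 2 : ℂ) : P3) * 2 = 1 := by
    have : (2 : P3) = C (2 : ℂ) := (map_ofNat (C : ℂ →+* P3) 2).symm
    rw [this, ← C_mul]
    norm_num
  have hB : B = C (1 / 2 : ℂ) * (a * d + b * c) := by
    rw [← h1, ← mul_assoc, hc, one_mul]
  have h4 : (C (1 / 2 : ℂ) : P3) * C (1 / 2 : ℂ) * 4 = 1 := by
    have : (4 : P3) = 2 * 2 := by norm_num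
    rw [this]
    linear_combination (C (1 / 2 : ℂ) * 2 + 1 : P3) * hc
  rw [hB, h0, h2]
  linear_combination (a * c * (b * d)) * h4

theorem irreducible_PP {A B E : P3} (hrel : IsRelPrime A E)
    (hE0 : E ≠ 0) (hdisc : ¬ IsSquare (B ^ 2 - A * E)) : Irreducible (PP A B E) := by
  have hP0 : PP A B E ≠ 0 := by
    intro h
    have := PP_coeff2 A B E
    rw [h] at this
    exact hE0 (by simpa using this.symm)
  constructor
  · intro h
    have := Polynomial.natDegree_eq_zero_of_isUnit h
    rw [PP_natDegree hE0] at this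
    exact absurd this (by norm_num)
  · intro G H hGH
    have hG0 : G ≠ 0 := by
      rintro rfl
      exact hP0 (by rw [hGH, zero_mul])
    have hH0 : H ≠ 0 := by
      rintro rfl
      exact hP0 (by rw [hGH, mul_zero])
    have hdeg : G.natDegree + H.natDegree = 2 := by
      rw [← Polynomial.natDegree_mul hG0 hH0, ← hGH, PP_natDegree hE0]
    have hcases : G.natDegree = 0 ∨ H.natDegree = 0 ∨ (G.natDegree = 1 ∧ H.natDegree = 1) := by
      omega
    rcases hcases with h | h | ⟨h, h'⟩
    · left
      obtain ⟨g, rfl⟩ := Polynomial.natDegree_eq_zero.1 h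
      exact Polynomial.isUnit_C.2 (isUnit_of_dvd hrel ⟨H, hGH⟩)
    · right
      obtain ⟨g, rfl⟩ := Polynomial.natDegree_eq_zero.1 h
      exact Polynomial.isUnit_C.2 (isUnit_of_dvd hrel ⟨G, by rw [hGH, mul_comm]⟩)
    · exfalso
      obtain ⟨b, hb, a, rfl⟩ := Polynomial.natDegree_eq_one.1 h
      obtain ⟨d, hd, c, rfl⟩ := Polynomial.natDegree_eq_one.1 h'
      have hexp : (Polynomial.C b * Polynomial.X + Polynomial.C a) *
          (Polynomial.C d * Polynomial.X + Polynomial.C c) =
          Polynomial.C (a * c) + Polynomial.C (a * d + b * c) * Polynomial.X +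
            Polynomial.C (b * d) * Polynomial.X ^ 2 := by
        simp only [Polynomial.C_mul, Polynomial.C_add]
        ring
      rw [hexp] at hGH
      refine hdisc (isSquare_of_mul (a := a) (b := b) (c := c) (d := d) ?_ ?_ ?_)
      · rw [← PP_coeff0 A B E, hGH, quad_coeff0]
      · rw [← PP_coeff1 A B E, hGH, quad_coeff1]
      · rw [← PP_coeff2 A B E, hGH, quad_coeff2]

/-- exchange of the variables -/
noncomputable def ex : Polynomial P3 ≃ₐ[ℂ] MvPolynomial (Fin 3) (Polynomial ℂ) :=
  (optionEquivLeft ℂ (Fin 3)).symm.trans (optionEquivRight ℂ (Fin 3))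

theorem ex_X : ex Polynomial.X = C Polynomial.X := by
  simp [ex, optionEquivLeft_symm_X]

theorem ex_C (p : P3) : ex (Polynomial.C p) = map (Polynomial.C) p := by
  induction p using MvPolynomial.induction_on with
  | C r =>
    rw [map_C]
    simp [ex, optionEquivLeft_symm_C_C]
  | add p q hp hq => rw [Polynomial.C_add, map_add, hp, hq, map_add]
  | mul_X p i hp =>
    rw [Polynomial.C_mul, map_mul, hp, map_mul, map_X]
    congr 1
    simp [ex, optionEquivLeft_symm_C_X]

/-- the generic member with coefficients in `ℂ[T]` -/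
noncomputable def FF (A B E : P3) : MvPolynomial (Fin 3) (Polynomial ℂ) :=
  map Polynomial.C A + C (2 * Polynomial.X) * map Polynomial.C B +
    C (Polynomial.X ^ 2) * map Polynomial.C E

theorem ex_PP (A B E : P3) : ex (PP A B E) = FF A B E := by
  unfold PP FF
  have e1 : ex (Polynomial.C (2 * B) * Polynomial.X) =
      map Polynomial.C (2 * B) * C Polynomial.X := by
    rw [map_mul ex, ex_X, ex_C]
  have e2 : ex (Polynomial.C E * Polynomial.X ^ 2) =
      map Polynomial.C E * C Polynomial.X ^ 2 := by
    rw [map_mul ex, map_pow ex, ex_X, ex_C]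
  rw [map_add ex, map_add ex, e1, e2, ex_C, map_mul (map Polynomial.C), C_mul, C_pow]
  have h2 : (map Polynomial.C (2 : P3) : MvPolynomial (Fin 3) (Polynomial ℂ)) = 2 :=
    map_ofNat (map Polynomial.C) 2
  have h3 : (C (2 : Polynomial ℂ) : MvPolynomial (Fin 3) (Polynomial ℂ)) = 2 :=
    map_ofNat (C : Polynomial ℂ →+* MvPolynomial (Fin 3) (Polynomial ℂ)) 2
  rw [h2, h3]
  ring

theorem constantCoeff_eq_zero {A : P3} {a : ℕ} (hA : A.IsHomogeneous a) (ha : 1 ≤ a) :
    constantCoeff A = 0 := by
  rw [constantCoeff_eq]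
  exact hA.coeff_eq_zero (by simp; omega)

theorem constantCoeff_FF {A B E : P3} {a : ℕ} (hA : A.IsHomogeneous a)
    (hB : B.IsHomogeneous a) (hE : E.IsHomogeneous a) (ha : 1 ≤ a) :
    constantCoeff (FF A B E) = 0 := by
  have key : ∀ p : P3, constantCoeff p = 0 →
      constantCoeff (map (Polynomial.C : ℂ →+* Polynomial ℂ) p) = 0 := by
    intro p hp
    rw [constantCoeff_map, hp, map_zero]
  have k1 : constantCoeff (C (2 * Polynomial.X) *
      map (Polynomial.C : ℂ →+* Polynomial ℂ) B) = 0 := by
    rw [map_mul constantCoeff, key B (constantCoeff_eq_zero hB ha), mul_zero]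
  have k2 : constantCoeff (C (Polynomial.X ^ 2) *
      map (Polynomial.C : ℂ →+* Polynomial ℂ) E) = 0 := by
    rw [map_mul constantCoeff, key E (constantCoeff_eq_zero hE ha), mul_zero]
  unfold FF
  rw [map_add constantCoeff, map_add constantCoeff, k1, k2,
    key A (constantCoeff_eq_zero hA ha)]
  simp

theorem map_FF (A B E : P3) :
    algebraMap (MvPolynomial (Fin 3) (Polynomial ℂ)) (MvPolynomial (Fin 3) kx) (FF A B E) =
      Fam (algebraMap (Polynomial ℂ) kx Polynomial.X) A B E := by
  rw [MvPolynomial.algebraMap_def]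
  unfold FF Fam
  simp only [map_add, map_mul, map_C, map_map, map_pow, map_ofNat]
  rfl

end G9a

open G9a in
theorem irreducible_generic {A B E : P3} {a : ℕ} (hA : A.IsHomogeneous a)
    (hB : B.IsHomogeneous a) (hE : E.IsHomogeneous a) (ha : 1 ≤ a) (hrel : IsRelPrime A E)
    (hE0 : E ≠ 0) (hdisc : ¬ IsSquare (B ^ 2 - A * E)) :
    Irreducible (Fam (algebraMap (Polynomial ℂ) kx Polynomial.X) A B E) := by
  have hirr : Irreducible (FF A B E) := by
    rw [← ex_PP]
    exact (MulEquiv.irreducible_iff ex.toMulEquiv).2 (irreducible_PP hrel hE0 hdisc)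
  have hprime : Prime (FF A B E) := hirr.prime
  have hI : (Ideal.span {FF A B E}).IsPrime := Ideal.isPrime_span_singleton_of_prime hprime
  have hloc := IsLocalization.isPrime_of_isPrime_disjoint
    ((nonZeroDivisors (Polynomial ℂ)).map (C (σ := Fin 3))) (MvPolynomial (Fin 3) kx)
    (Ideal.span {FF A B E}) hI ?_
  · rw [Ideal.map_span, Set.image_singleton, map_FF] at hloc
    have h0 : Fam (algebraMap (Polynomial ℂ) kx Polynomial.X) A B E ≠ 0 := by
      rw [← map_FF]
      intro h
      have hinj : Function.Injective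
          (algebraMap (MvPolynomial (Fin 3) (Polynomial ℂ)) (MvPolynomial (Fin 3) kx)) := by
        rw [MvPolynomial.algebraMap_def]
        exact map_injective _ (IsFractionRing.injective (Polynomial ℂ) kx)
      exact hprime.ne_zero (hinj (by rw [h, map_zero]))
    exact ((Ideal.span_singleton_prime h0).1 hloc).irreducible
  · rw [Set.disjoint_left]
    rintro _ ⟨c, hc, rfl⟩ hmem
    rw [SetLike.mem_coe, Ideal.mem_span_singleton] at hmem
    obtain ⟨q, hq⟩ := hmem
    have := congrArg constantCoeff hq
    rw [map_mul, constantCoeff_FF hA hB hE ha, zero_mul] at this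
    simp only [constantCoeff_C] at this
    exact nonZeroDivisors.ne_zero hc this

end Pool.Agent.Helper89.GC
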