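import Mathlib

set_option autoImplicit false

/-!
Piece G9b.  An irreducible polynomial over a field of characteristic zero with a smooth rational
zero is irreducible over the algebraic closure.

Proof.  Let `Ω` be the algebraic closure, `F' = map F`.  `F'` has an irreducible factor `G` with
`G(z) = 0` (`Prime`/factor argument: `F'` is a product of irreducibles times a unit).  Some
coefficient of `G` is nonzero; scale so that `coeff m G = 1`.  For `σ : Ω ≃ₐ[K] Ω`, `map σ G` is an
irreducible factor of `map σ F' = F'` vanishing at `z`, so it is associated to `G`: otherwise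
`G * map σ G ∣ F'` (coprime irreducibles in a UFD) and all partial derivatives of `F'` vanish at
`z`.  So `map σ G = C c * G`, and `c = 1` by comparing the coefficients of `m`.  So all
coefficients of `G` are fixed by the Galois group, hence lie in `K`
(`InfiniteGalois.mem_bot_iff_fixed` or `IsGalois` of `AlgebraicClosure K` over `K`): `G = map G₀`.
The quotient `F' / G` is fixed as well, so `F = G₀ H₀`; `G₀` is not a unit, so `H₀` is a unit and
`F'` is associated to `G`.
-/

namespace Pool.Agent.Helper89.GC

open MvPolynomial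

theorem geom_irred {K : Type*} [Field K] [CharZero K] {F : MvPolynomial (Fin 3) K}
    (hF : Irreducible F) {z : Fin 3 → K} (hz : eval z F = 0) {i : Fin 3}
    (hd : eval z (pderiv i F) ≠ 0) :
    Irreducible (map (algebraMap K (AlgebraicClosure K)) F) := by
  classical
  set φ : K →+* AlgebraicClosure K := algebraMap K (AlgebraicClosure K) with hφ
  have hφi : Function.Injective φ := φ.injective
  have hmi : Function.Injective (map φ : MvPolynomial (Fin 3) K →+* _) := map_injective φ hφi
  set F' := map φ F with hF'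
  set w : Fin 3 → AlgebraicClosure K := fun j => φ (z j) with hw
  have hevm : ∀ P : MvPolynomial (Fin 3) K, eval w (map φ P) = φ (eval z P) := by
    intro P
    rw [eval_map, hw, ← eval₂_id, eval₂_comp_left φ (RingHom.id K) z P]
    rfl
  have hF0 : F' ≠ 0 := by
    intro h
    exact hF.ne_zero (hmi (by rw [map_zero]; exact h))
  have hFw : eval w F' = 0 := by rw [hF', hevm, hz, map_zero]
  have hFd : eval w (pderiv i F') ≠ 0 := by
    rw [hF', pderiv_map, hevm]
    intro h
    exact hd (hφi (by rw [h, map_zero]))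
  -- an irreducible factor through the point
  obtain ⟨G, hG, hGF, hGw⟩ : ∃ G : MvPolynomial (Fin 3) (AlgebraicClosure K),
      Irreducible G ∧ G ∣ F' ∧ eval w G = 0 := by
    obtain ⟨f, hf, hfa⟩ := WfDvdMonoid.exists_factors F' hF0
    have h0 : eval w f.prod = 0 := by
      obtain ⟨u, hu⟩ := hfa.symm
      rw [← hu, map_mul, hFw, zero_mul]
    rw [map_multiset_prod, Multiset.prod_eq_zero_iff] at h0
    obtain ⟨G, hGf, hG0⟩ := Multiset.mem_map.mp h0
    exact ⟨G, hf G hGf, (Multiset.dvd_prod hGf).trans hfa.dvd, hG0⟩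
  -- normalise
  obtain ⟨m, hm⟩ := ne_zero_iff.mp hG.ne_zero
  obtain ⟨G1, hG1, hG1F, hG1w, hG1m⟩ : ∃ G1 : MvPolynomial (Fin 3) (AlgebraicClosure K),
      Irreducible G1 ∧ G1 ∣ F' ∧ eval w G1 = 0 ∧ coeff m G1 = 1 := by
    have hu : IsUnit (C (coeff m G)⁻¹ : MvPolynomial (Fin 3) (AlgebraicClosure K)) :=
      (IsUnit.mk0 _ (inv_ne_zero hm)).map C
    have ha : Associated G (C (coeff m G)⁻¹ * G) := by
      rw [mul_comm]
      exact (associated_mul_unit_right G _ hu)
    refine ⟨C (coeff m G)⁻¹ * G, ha.irreducible hG, ?_, ?_, ?_⟩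
    · exact ha.symm.dvd.trans hGF
    · rw [map_mul, hGw, mul_zero]
    · rw [coeff_C_mul, inv_mul_cancel₀ hm]
  -- invariance
  have hσF : ∀ σ : AlgebraicClosure K ≃ₐ[K] AlgebraicClosure K,
      map (σ : AlgebraicClosure K →+* AlgebraicClosure K) F' = F' := by
    intro σ
    have hcomp : (σ : AlgebraicClosure K →+* AlgebraicClosure K).comp φ = φ := by
      ext x
      exact σ.commutes x
    rw [hF', map_map, hcomp]
  have hσw : ∀ (σ : AlgebraicClosure K ≃ₐ[K] AlgebraicClosure K) (j : Fin 3), σ (w j) = w j := by
    intro σ j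
    exact σ.commutes (z j)
  have hσG : ∀ σ : AlgebraicClosure K ≃ₐ[K] AlgebraicClosure K,
      map (σ : AlgebraicClosure K →+* AlgebraicClosure K) G1 = G1 := by
    intro σ
    set ψ : AlgebraicClosure K →+* AlgebraicClosure K :=
      (σ : AlgebraicClosure K →+* AlgebraicClosure K) with hψ
    set G2 := map ψ G1 with hG2
    have hG2i : Irreducible G2 := by
      have := (MulEquiv.irreducible_iff
        (mapEquiv (Fin 3) (σ : AlgebraicClosure K ≃+* AlgebraicClosure K)) (x := G1)).mpr hG1
      exact this
    have hG2F : G2 ∣ F' := by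
      have h6 : map ψ G1 ∣ map ψ F' := _root_.map_dvd (map ψ) hG1F
      rwa [hσF σ] at h6
    have hG2w : eval w G2 = 0 := by
      rw [hG2, eval_map]
      have h2 : eval₂ ψ w G1 = ψ (eval w G1) := by
        rw [← eval₂_id, eval₂_comp_left ψ (RingHom.id _) w G1]
        congr 1
        funext j
        exact (hσw σ j).symm
      rw [h2, hG1w, map_zero]
    have hass : Associated G1 G2 := by
      by_contra hna
      obtain ⟨H, hH⟩ := hG1F
      have hp2 : Prime G2 := hG2i.prime
      have h1 : G2 ∣ H := by
        rw [hH] at hG2F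
        rcases hp2.dvd_or_dvd hG2F with h | h
        · exact absurd (hG2i.associated_of_dvd hG1 h).symm hna
        · exact h
      obtain ⟨H', hH'⟩ := h1
      apply hFd
      rw [hH, hH']
      simp only [Derivation.leibniz, smul_eq_mul, map_add, map_mul, hG1w, hG2w]
      ring
    obtain ⟨u, hu⟩ := hass
    obtain ⟨c, hc, hcu⟩ := isUnit_iff_eq_C_of_isReduced.mp u.isUnit
    have hc1 : c = 1 := by
      have h3 := congrArg (coeff m) hu
      rw [hcu, mul_comm, coeff_C_mul, hG1m, mul_one, hG2, coeff_map, hG1m, map_one] at h3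
      exact h3
    rw [← hu, hcu, hc1, C_1, mul_one]
  have hrange : ∀ P : MvPolynomial (Fin 3) (AlgebraicClosure K),
      (∀ σ : AlgebraicClosure K ≃ₐ[K] AlgebraicClosure K,
        map (σ : AlgebraicClosure K →+* AlgebraicClosure K) P = P) →
      ∃ P0 : MvPolynomial (Fin 3) K, map φ P0 = P := by
    intro P hP
    have : P ∈ Set.range (map φ : MvPolynomial (Fin 3) K →+* _) := by
      rw [mem_range_map_iff_coeffs_subset]
      intro a ha
      obtain ⟨n, -, rfl⟩ := mem_coeffs_iff.mp ha
      rw [hφ, InfiniteGalois.mem_range_algebraMap_iff_fixed]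
      intro σ
      have h4 := congrArg (coeff n) (hP σ)
      rw [coeff_map] at h4
      exact h4
    exact this
  obtain ⟨G0, hG0⟩ := hrange G1 hσG
  obtain ⟨H, hH⟩ := hG1F
  have hσH : ∀ σ : AlgebraicClosure K ≃ₐ[K] AlgebraicClosure K,
      map (σ : AlgebraicClosure K →+* AlgebraicClosure K) H = H := by
    intro σ
    have h5 := congrArg (map (σ : AlgebraicClosure K →+* AlgebraicClosure K)) hH
    rw [hσF, map_mul, hσG, hH] at h5
    exact (mul_left_cancel₀ hG1.ne_zero h5).symm
  obtain ⟨H0, hH0⟩ := hrange H hσH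
  have hFG : F = G0 * H0 := by
    apply hmi
    rw [map_mul, hG0, hH0]
    exact hH
  rcases hF.isUnit_or_isUnit hFG with h | h
  · exfalso
    have : IsUnit G1 := by
      rw [← hG0]
      exact h.map (map φ)
    exact hG1.not_isUnit this
  · have hHu : IsUnit H := by
      rw [← hH0]
      exact h.map (map φ)
    rw [hH]
    exact (associated_mul_unit_right G1 H hHu).irreducible hG1

end Pool.Agent.Helper89.GC
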