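import Pool.Agent.Helper89.GC.Defs

set_option autoImplicit false

/-!
Piece G9c.  Specialisation: if the generic member is irreducible over the algebraic closure `Ω` of
`ℂ(T)`, some member with parameter in `ℂ` outside a given finite set is irreducible.

Proof.  Let `R ⊆ ℂ` be the subring generated by the coefficients of `A`, `B`, `E`
and by `S`: it is countable.  `ℂ` and `Ω` are algebraically closed fields over `R` of the same
uncountable cardinality, so they have transcendence bases over `R` of the same cardinality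
and there is a ring isomorphism `φ : Ω ≃+* ℂ` fixing `R`.  Put `t = φ(T)`.
`t ∉ S`: if `t = s ∈ S` then `φ(T) = φ(s)`, so `T = s`.  `map φ (Fam T A B E) = A + 2 t B +
t ^ 2 E`, so it is irreducible.
-/

namespace Pool.Agent.Helper89.GC

open MvPolynomial Pool.Agent.Helper29.HP

open Cardinal in
/-- the ring isomorphism over a common base ring -/
private theorem exists_equiv_over (R K L : Type) [CommRing R] [Field K] [Field L] [Algebra R K]
    [Algebra R L] [FaithfulSMul R K] [FaithfulSMul R L] [IsAlgClosed K] [IsAlgClosed L]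
    (hR : #R ≤ ℵ₀) (hK : ℵ₀ < #K) (hKL : #K = #L) :
    ∃ φ : K ≃+* L, ∀ r : R, φ (algebraMap R K r) = algebraMap R L r := by
  haveI : Nontrivial R := (algebraMap R K).domain_nontrivial
  obtain ⟨ι, v, hv⟩ := exists_isTranscendenceBasis' R K
  obtain ⟨κ, w, hw⟩ := exists_isTranscendenceBasis' R L
  have h1 : #K = #ι := IsAlgClosed.cardinal_eq_cardinal_transcendence_basis_of_aleph0_lt' v hv
    hR hK
  have h2 : #L = #κ := IsAlgClosed.cardinal_eq_cardinal_transcendence_basis_of_aleph0_lt' w hw
    hR (hKL ▸ hK)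
  have h3 : #ι = #κ := by rw [← h1, ← h2, hKL]
  obtain ⟨e⟩ := Cardinal.eq.1 h3
  letI := IsAlgClosed.isAlgClosure_of_transcendence_basis v hv
  letI := IsAlgClosed.isAlgClosure_of_transcendence_basis w hw
  let E : Algebra.adjoin R (Set.range v) ≃ₐ[R] Algebra.adjoin R (Set.range w) :=
    hv.1.aevalEquiv.symm.trans ((MvPolynomial.renameEquiv R e).trans hw.1.aevalEquiv)
  refine ⟨IsAlgClosure.equivOfEquiv K L E.toRingEquiv, fun r => ?_⟩
  rw [IsScalarTower.algebraMap_apply R (Algebra.adjoin R (Set.range v)) K r,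
    IsAlgClosure.equivOfEquiv_algebraMap]
  have h4 : E.toRingEquiv (algebraMap R (Algebra.adjoin R (Set.range v)) r) =
      algebraMap R (Algebra.adjoin R (Set.range w)) r := E.commutes r
  rw [h4, ← IsScalarTower.algebraMap_apply]

open Cardinal in
private theorem countable_adjoin (X : Set ℂ) (hX : X.Countable) :
    #(Algebra.adjoin ℤ X) ≤ ℵ₀ := by
  haveI : Countable X := hX
  have h1 : (Algebra.adjoin ℤ X : Subalgebra ℤ ℂ) =
      (MvPolynomial.aeval (R := ℤ) ((↑) : X → ℂ)).range := by
    rw [← Algebra.adjoin_range_eq_range_aeval, Subtype.range_coe]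
  rw [h1]
  have h2 : Function.Surjective (MvPolynomial.aeval (R := ℤ) ((↑) : X → ℂ)).rangeRestrict :=
    (MvPolynomial.aeval (R := ℤ) ((↑) : X → ℂ)).rangeRestrict_surjective
  refine (Cardinal.mk_le_of_surjective h2).trans ?_
  refine MvPolynomial.cardinalMk_le_max.trans ?_
  simp only [sup_le_iff]
  exact ⟨⟨Cardinal.mk_le_aleph0, Cardinal.mk_le_aleph0⟩, le_rfl⟩

open Cardinal in
private theorem card_omega : #(AlgebraicClosure kx) = #ℂ := by
  have hC : ℵ₀ < #ℂ := by
    rw [Cardinal.mk_complex]
    exact Cardinal.aleph0_lt_continuum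
  refine le_antisymm ?_ ?_
  · have h1 := Algebra.IsAlgebraic.cardinalMk_le_max kx (AlgebraicClosure kx)
    refine h1.trans ?_
    rw [Cardinal.mk_fractionRing, Polynomial.cardinalMk_eq_max, max_eq_left hC.le,
      max_eq_left hC.le]
  · exact Cardinal.mk_le_of_injective (algebraMap ℂ (AlgebraicClosure kx)).injective

theorem exists_spec (A B E : P3) (S : Set ℂ) (hS : S.Finite)
    (h : Irreducible (Fam (K := AlgebraicClosure kx) (algebraMap kx (AlgebraicClosure kx)
      (algebraMap (Polynomial ℂ) kx Polynomial.X)) A B E)) :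
    ∃ t : ℂ, t ∉ S ∧ Irreducible (A + C (2 * t) * B + C (t ^ 2) * E) := by
  let Ω := AlgebraicClosure kx
  let X : Set ℂ := (Set.range fun m => coeff m A) ∪ (Set.range fun m => coeff m B) ∪
    (Set.range fun m => coeff m E) ∪ S
  have hX : X.Countable := by
    refine Set.Countable.union (Set.Countable.union (Set.Countable.union ?_ ?_) ?_) hS.countable
    · exact Set.countable_range _
    · exact Set.countable_range _
    · exact Set.countable_range _
  let R := Algebra.adjoin ℤ X
  have hC : Cardinal.aleph0 < Cardinal.mk ℂ := by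
    rw [Cardinal.mk_complex]
    exact Cardinal.aleph0_lt_continuum
  haveI f1 : FaithfulSMul R Ω := by
    rw [faithfulSMul_iff_algebraMap_injective]
    exact (algebraMap ℂ Ω).injective.comp Subtype.val_injective
  haveI f2 : FaithfulSMul R ℂ := by
    rw [faithfulSMul_iff_algebraMap_injective]
    exact Subtype.val_injective
  obtain ⟨φ, hφ⟩ := exists_equiv_over R Ω ℂ (countable_adjoin X hX)
    (by rw [card_omega]; exact hC) card_omega
  have hφX : ∀ c ∈ X, φ (algebraMap ℂ Ω c) = c := by
    intro c hc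
    exact hφ ⟨c, Algebra.subset_adjoin hc⟩
  have hmap : ∀ F : P3, (∀ m, coeff m F ∈ X) →
      MvPolynomial.map (φ : Ω →+* ℂ) (MvPolynomial.map (algebraMap ℂ Ω) F) = F := by
    intro F hF
    ext m
    rw [MvPolynomial.coeff_map, MvPolynomial.coeff_map]
    exact hφX _ (hF m)
  set T : Ω := algebraMap kx Ω (algebraMap (Polynomial ℂ) kx Polynomial.X) with hT
  refine ⟨φ T, ?_, ?_⟩
  · intro hmem
    have h1 : φ (algebraMap ℂ Ω (φ T)) = φ T := hφX _ (Or.inr hmem)
    have h2 : algebraMap ℂ Ω (φ T) = T := φ.injective h1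
    rw [hT, IsScalarTower.algebraMap_apply ℂ kx Ω] at h2
    have h3 := (algebraMap kx Ω).injective h2
    rw [IsScalarTower.algebraMap_apply ℂ (Polynomial ℂ) kx] at h3
    have h4 := IsFractionRing.injective (Polynomial ℂ) kx h3
    rw [Polynomial.algebraMap_apply] at h4
    have h5 := congrArg Polynomial.natDegree h4
    simp at h5
  · have h1 : MvPolynomial.map (φ : Ω →+* ℂ) (Fam (K := Ω) T A B E) =
        A + C (2 * φ T) * B + C (φ T ^ 2) * E := by
      have hA := hmap A fun m => Or.inl (Or.inl (Or.inl ⟨m, rfl⟩))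
      have hB := hmap B fun m => Or.inl (Or.inl (Or.inr ⟨m, rfl⟩))
      have hE := hmap E fun m => Or.inl (Or.inr ⟨m, rfl⟩)
      have hc : ∀ x : Ω, MvPolynomial.map (φ : Ω →+* ℂ) (C x : MvPolynomial (Fin 3) Ω) =
          C (φ x) := fun x => MvPolynomial.map_C _ x
      have h5 : MvPolynomial.map (φ : Ω →+* ℂ) (Fam (K := Ω) T A B E) =
          MvPolynomial.map (φ : Ω →+* ℂ) (MvPolynomial.map (algebraMap ℂ Ω) A) +
          MvPolynomial.map (φ : Ω →+* ℂ) (C (2 * T)) *
            MvPolynomial.map (φ : Ω →+* ℂ) (MvPolynomial.map (algebraMap ℂ Ω) B) +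
          MvPolynomial.map (φ : Ω →+* ℂ) (C (T ^ 2)) *
            MvPolynomial.map (φ : Ω →+* ℂ) (MvPolynomial.map (algebraMap ℂ Ω) E) := by
        unfold Fam
        simp only [RingHom.map_add, RingHom.map_mul]
      rw [h5, hA, hB, hE, hc, hc, map_mul φ, map_pow φ, map_ofNat φ]
    rw [← h1]
    exact (MulEquiv.irreducible_iff (MvPolynomial.mapEquiv (Fin 3) φ)).2 h

end Pool.Agent.Helper89.GC
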