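import Mathlib
import Pool.Agent.Helper89.GC.St.G9a
import Pool.Agent.Helper89.GC.St.G9b
import Pool.Agent.Helper89.GC.St.G9c
import Pool.Agent.Helper29.HP.St.EvenOn

set_option autoImplicit false

/-!
Piece G10.  Irreducible members of the family `A + 2 t p L + t ^ 2 μ L ^ 2`.

Proof.  `z₀` a common zero of `A` and `δ` (`Helper16.exists_common_zero`).  `p(z₀) = 0`,
`μ(z₀) ≠ 0`, `q(z₀) ≠ 0`; differentiating `p ^ 2 - δ q ^ 2 = μ A` at `z₀`:
`μ(z₀) ∂ᵢA(z₀) = - q(z₀) ^ 2 ∂ᵢδ(z₀)`, nonzero for some `i`.  `ℓ` a linear form with `ℓ(z₀) = 0` and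
`ℓ ∤ A` (there are infinitely many non-proportional linear forms vanishing at `z₀`, `A ≠ 0` has
finitely many irreducible factors; or: take a point `P` with `A(P) ≠ 0` and the line through `z₀`
and `P`).  `L = ℓ ^ (N + 3 - n)`.  Apply G9a to `A`, `B = p L`, `E = μ L ^ 2` (a common irreducible
factor `π` of `A` and `E` divides `ℓ`, so `ℓ ∣ A`, or divides `μ`, and then a common zero of `π`
and `δ` contradicts `Av δ μ A`; `B ^ 2 - A E = L ^ 2 δ q ^ 2` is not a square: `δ` is prime,
`q, L ≠ 0`), then G9b at `z₀` (`L(z₀) = 0`, `p(z₀) = 0`), then G9c.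
-/

namespace Pool.Agent.Helper89.GC

open MvPolynomial Pool.Agent.Helper29.HP

private lemma g10_eval_map {K : Type*} [Field K] (f : ℂ →+* K) (z : Fin 3 → ℂ) (G : P3) :
    eval (fun i => f (z i)) (map f G) = f (eval z G) := by
  have h : (eval (fun i => f (z i))).comp (map f) = f.comp (eval z) := by
    apply MvPolynomial.ringHom_ext
    · intro r; simp
    · intro i; simp
  exact congrArg (fun g : P3 →+* K => g G) h

private lemma g10_line (z P : Fin 3 → ℂ) (hz : z ≠ 0) (hP : ∀ c : ℂ, P ≠ c • z) :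
    ∃ ℓ : P3, ℓ.IsHomogeneous 1 ∧ ℓ ≠ 0 ∧ eval z ℓ = 0 ∧ eval P ℓ = 0 := by
  refine ⟨∑ i, C (crossProduct z P i) * X i, ?_, ?_, ?_, ?_⟩
  · refine IsHomogeneous.sum _ _ _ fun i _ => ?_
    have := (isHomogeneous_C (Fin 3) (crossProduct z P i)).mul (isHomogeneous_X ℂ i)
    simpa using this
  · intro h
    have hc : crossProduct z P = 0 := by
      funext k
      have h1 := congrArg (eval (Pi.single k 1 : Fin 3 → ℂ)) h
      simp only [map_sum, map_mul, eval_C, eval_X, map_zero] at h1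
      rw [Finset.sum_eq_single k] at h1
      · simpa using h1
      · intro j _ hj
        rw [Pi.single_eq_of_ne hj, mul_zero]
      · simp
    have h0 := congrFun hc 0
    have h1 := congrFun hc 1
    have h2 := congrFun hc 2
    simp only [cross_apply, Matrix.cons_val_zero, Matrix.cons_val_one, Matrix.cons_val,
      Pi.zero_apply] at h0 h1 h2
    have hk : z 0 ≠ 0 ∨ z 1 ≠ 0 ∨ z 2 ≠ 0 := by
      by_contra hcon
      push Not at hcon
      apply hz
      funext i
      fin_cases i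
      · exact hcon.1
      · exact hcon.2.1
      · exact hcon.2.2
    rcases hk with hk | hk | hk
    · apply hP (P 0 / z 0)
      funext i
      rw [Pi.smul_apply, smul_eq_mul]
      fin_cases i
      · simp only [Fin.zero_eta]; field_simp
      · simp only [Fin.mk_one]; field_simp; linear_combination h2
      · simp only [Fin.reduceFinMk]; field_simp; linear_combination -h1
    · apply hP (P 1 / z 1)
      funext i
      rw [Pi.smul_apply, smul_eq_mul]
      fin_cases i
      · simp only [Fin.zero_eta]; field_simp; linear_combination -h2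
      · simp only [Fin.mk_one]; field_simp
      · simp only [Fin.reduceFinMk]; field_simp; linear_combination h0
    · apply hP (P 2 / z 2)
      funext i
      rw [Pi.smul_apply, smul_eq_mul]
      fin_cases i
      · simp only [Fin.zero_eta]; field_simp; linear_combination h1
      · simp only [Fin.mk_one]; field_simp; linear_combination -h0
      · simp only [Fin.reduceFinMk]; field_simp
  · simp only [Fin.sum_univ_three, cross_apply, Matrix.cons_val_zero, Matrix.cons_val_one,
      Matrix.cons_val]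
    simp only [map_add, map_mul, eval_C, eval_X]
    ring
  · simp only [Fin.sum_univ_three, cross_apply, Matrix.cons_val_zero, Matrix.cons_val_one,
      Matrix.cons_val]
    simp only [map_add, map_mul, eval_C, eval_X]
    ring

private lemma g10_irr {ℓ : P3} (h : ℓ.IsHomogeneous 1) (h0 : ℓ ≠ 0) : Irreducible ℓ := by
  apply irreducible_of_totalDegree_eq_one (h.totalDegree h0)
  intro x hx
  rw [isUnit_iff_ne_zero]
  rintro rfl
  apply h0
  ext i
  rw [coeff_zero]
  exact zero_dvd_iff.1 (hx i)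

private lemma g10_smul {G : P3} {a : ℕ} (hG : G.IsHomogeneous a) (c : ℂ) (w : Fin 3 → ℂ) :
    eval (c • w) G = c ^ a * eval w G := by
  exact eo_eval_smul hG c w

private lemma g10_sq {m δ : P3} (hm : m ≠ 0) (hδ : Irreducible δ) : ¬ IsSquare (δ * m ^ 2) := by
  rintro ⟨r, hr⟩
  have h1 : m ^ 2 ∣ r ^ 2 := ⟨δ, by rw [pow_two r, ← hr]; ring⟩
  have h2 : m ∣ r := (IsIntegrallyClosed.pow_dvd_pow_iff two_ne_zero).1 h1
  obtain ⟨s, rfl⟩ := h2
  have h3 : δ = s * s := by
    apply mul_right_cancel₀ (pow_ne_zero 2 hm)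
    rw [hr]; ring
  exact hδ.not_isSquare ⟨s, h3⟩

private lemma g10_fam {K L : Type*} [Field K] [Field L] [Algebra ℂ K] [Algebra ℂ L] [Algebra K L]
    [IsScalarTower ℂ K L] (t : K) (A B E : P3) :
    map (algebraMap K L) (Fam t A B E) = Fam (algebraMap K L t) A B E := by
  unfold Fam
  simp only [map_add, map_mul, map_C, map_pow, map_map, ← IsScalarTower.algebraMap_eq ℂ K L,
    map_ofNat]

private lemma g10_fam_eval {K : Type*} [Field K] [Algebra ℂ K] (t : K) (A B E : P3)
    (z : Fin 3 → ℂ) : eval (fun i => algebraMap ℂ K (z i)) (Fam t A B E) =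
      algebraMap ℂ K (eval z A) + 2 * t * algebraMap ℂ K (eval z B) +
        t ^ 2 * algebraMap ℂ K (eval z E) := by
  unfold Fam
  simp only [map_add, map_mul, eval_C, g10_eval_map]

private lemma g10_fam_pderiv {K : Type*} [Field K] [Algebra ℂ K] (t : K) (A B E : P3)
    (i : Fin 3) : pderiv i (Fam t A B E) = Fam t (pderiv i A) (pderiv i B) (pderiv i E) := by
  unfold Fam
  simp only [map_add, pderiv_C_mul, pderiv_map]

private lemma g10_rel {δ μ A ℓ : P3} {n : ℕ} (k : ℕ) (hδ : δ.IsHomogeneous 6)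
    (hμ : μ.IsHomogeneous n) (hμ0 : μ ≠ 0) (hA0 : A ≠ 0) (hA : Av δ μ A) (hℓ : Irreducible ℓ)
    (hℓA : ¬ ℓ ∣ A) : IsRelPrime A (μ * (ℓ ^ k) ^ 2) := by
  apply WfDvdMonoid.isRelPrime_of_no_irreducible_factors (fun h => hA0 h.1)
  intro π hπ hπA hπE
  have hπp : Prime π := UniqueFactorizationMonoid.irreducible_iff_prime.1 hπ
  rcases hπp.dvd_or_dvd hπE with h1 | h1
  · obtain ⟨s, hs⟩ := h1
    obtain ⟨a, ha⟩ := hom_of_mul (f := π) (g := s) (n := n) (by rw [← hs]; exact hμ)
      (by rw [← hs]; exact hμ0)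
    have ha1 := hom_pos ha hπ.ne_zero hπ.not_isUnit
    obtain ⟨w, hw0, hw⟩ := Pool.Agent.Helper16.exists_common_zero (σ := Fin 3) ![π, δ]
      (by
        intro i
        fin_cases i
        · exact hom_eval_zero ha ha1
        · exact hom_eval_zero hδ (by norm_num)) (by simp)
    have hw1 : eval w π = 0 := hw 0
    have hw2 : eval w δ = 0 := hw 1
    obtain ⟨s', hs'⟩ := hπA
    exact hA w hw0 (by rw [hs, map_mul, hw1, zero_mul]) hw2 (by rw [hs', map_mul, hw1, zero_mul])
  · have h2 : π ∣ ℓ := hπp.dvd_of_dvd_pow (hπp.dvd_of_dvd_pow h1)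
    exact hℓA ((hπ.associated_of_dvd hℓ h2).symm.dvd.trans hπA)

theorem pencil_irr {δ μ p q A : P3} {n N : ℕ} (hδ : δ.IsHomogeneous 6) (hsm : Sm δ)
    (hμ : μ.IsHomogeneous n) (hn : 1 ≤ n) (hN : n ≤ N) (hμδ : ¬ δ ∣ μ)
    (h : NE δ μ p q A N (2 * N + 6 - n)) (hA : Av δ μ A) (hq : Av δ A q) :
    ∃ L : P3, L.IsHomogeneous (N + 3 - n) ∧ ∀ S : Set ℂ, S.Finite → ∃ t : ℂ, t ∉ S ∧
      Irreducible (A + C (2 * t) * (p * L) + C (t ^ 2) * (μ * L ^ 2)) := by
  have hirr : Irreducible δ := irreducible_of_smooth (by norm_num) hδ hsm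
  have ha : 1 ≤ 2 * N + 6 - n := by omega
  obtain ⟨z, hz0, hz⟩ := Pool.Agent.Helper16.exists_common_zero (σ := Fin 3) ![A, δ]
    (by
      intro i
      fin_cases i
      · exact hom_eval_zero h.hA ha
      · exact hom_eval_zero hδ (by norm_num)) (by simp)
  have hzA : eval z A = 0 := hz 0
  have hzδ : eval z δ = 0 := hz 1
  have hμz : eval z μ ≠ 0 := fun h1 => hA z hz0 h1 hzδ hzA
  have hqz : eval z q ≠ 0 := hq z hz0 hzA hzδ
  have hpz : eval z p = 0 := by
    have h1 := congrArg (eval z) h.eq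
    simp only [map_sub, map_pow, map_mul, hzA, hzδ, zero_mul, mul_zero, sub_zero] at h1
    exact pow_eq_zero_iff two_ne_zero |>.1 h1
  obtain ⟨i, hi⟩ := hsm z hz0 hzδ
  have hdA : eval z (pderiv i A) ≠ 0 := by
    intro h0
    have h1 := congrArg (fun G => eval z (pderiv i G)) h.eq
    simp only [map_sub, pow_two, Derivation.leibniz, smul_eq_mul, map_add, map_mul, hzA, hzδ, hpz,
      h0, zero_mul, mul_zero, zero_add, add_zero, zero_sub, neg_eq_zero, mul_eq_zero] at h1
    tauto
  have hA0 : A ≠ 0 := by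
    rintro rfl
    simp at hdA
  obtain ⟨P, hP⟩ : ∃ P : Fin 3 → ℂ, eval P A ≠ 0 := by
    by_contra hcon
    push Not at hcon
    exact hA0 (MvPolynomial.funext fun x => by rw [hcon x, map_zero])
  have hPz : ∀ c : ℂ, P ≠ c • z := by
    rintro c rfl
    apply hP
    rw [g10_smul h.hA, hzA, mul_zero]
  obtain ⟨ℓ, hℓ1, hℓ0, hℓz, hℓP⟩ := g10_line z P hz0 hPz
  have hℓirr := g10_irr hℓ1 hℓ0
  have hℓA : ¬ ℓ ∣ A := by
    rintro ⟨s, hs⟩
    apply hP
    rw [hs, map_mul, hℓP, zero_mul]
  have hμ0 : μ ≠ 0 := by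
    rintro rfl
    simp at hμz
  have hq0 : q ≠ 0 := by
    rintro rfl
    simp at hqz
  obtain ⟨k, hk⟩ : ∃ k, k = N + 3 - n := ⟨_, rfl⟩
  have hrel := g10_rel k hδ hμ hμ0 hA0 hA hℓirr hℓA
  obtain ⟨L, hL⟩ : ∃ L, L = ℓ ^ k := ⟨_, rfl⟩
  have hLhom : L.IsHomogeneous k := by
    rw [hL]
    simpa using hℓ1.pow k
  have hL0 : L ≠ 0 := by
    rw [hL]
    exact pow_ne_zero _ hℓ0
  have hLz : eval z L = 0 := by
    rw [hL, map_pow, hℓz, zero_pow (by omega)]
  rw [← hL] at hrel
  have hdisc : ¬ IsSquare ((p * L) ^ 2 - A * (μ * L ^ 2)) := by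
    have h1 : (p * L) ^ 2 - A * (μ * L ^ 2) = δ * (q * L) ^ 2 := by
      linear_combination L ^ 2 * h.eq
    rw [h1]
    exact g10_sq (mul_ne_zero hq0 hL0) hirr
  have hB : (p * L).IsHomogeneous (2 * N + 6 - n) := by
    have h1 := h.hp.mul hLhom
    have h2 : N + 3 + k = 2 * N + 6 - n := by omega
    rwa [h2] at h1
  have hE : (μ * L ^ 2).IsHomogeneous (2 * N + 6 - n) := by
    have h1 := hμ.mul (hLhom.pow 2)
    have h2 : n + k * 2 = 2 * N + 6 - n := by omega
    rwa [h2] at h1
  have hE0 : μ * L ^ 2 ≠ 0 := mul_ne_zero hμ0 (pow_ne_zero 2 hL0)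
  have hgen := irreducible_generic h.hA hB hE ha hrel hE0 hdisc
  have hgeom := geom_irred hgen (z := fun j => algebraMap ℂ kx (z j)) (i := i)
    (by
      rw [g10_fam_eval]
      simp only [map_mul, map_pow, hzA, hLz, map_zero, mul_zero, add_zero, ne_eq,
        OfNat.ofNat_ne_zero, not_false_eq_true, zero_pow])
    (by
      rw [g10_fam_pderiv, g10_fam_eval]
      have e1 : eval z (pderiv i (p * L)) = 0 := by
        simp only [Derivation.leibniz, smul_eq_mul, map_add, map_mul, hpz, hLz, zero_mul,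
          add_zero]
      have e2 : eval z (pderiv i (μ * L ^ 2)) = 0 := by
        simp only [pow_two, Derivation.leibniz, smul_eq_mul, map_add, map_mul, hLz, zero_mul,
          mul_zero, add_zero]
      rw [e1, e2, map_zero, mul_zero, mul_zero, add_zero, add_zero]
      intro h0
      exact hdA ((map_eq_zero (algebraMap ℂ kx)).1 h0))
  rw [g10_fam] at hgeom
  refine ⟨L, ?_, fun S hS => exists_spec A (p * L) (μ * L ^ 2) S hS hgeom⟩
  rw [← hk]
  exact hLhom

end Pool.Agent.Helper89.GC
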