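import Pool.Agent.Helper89.GC.Defs
import Pool.Agent.Helper5.HP.TwoEx

set_option autoImplicit false

/-!
Piece G12.  The dimension of the space of sections only depends on the class.

Proof.  `δ` is irreducible; `δ ∤ μ'` (otherwise `δ ∣ p ^ 2`) and `δ ∤ μ`.  In the domain
`P3 ⧸ (δ)` (an integral domain) multiplication by `p` and by `μ` are injective; it suffices that
`p · Sig δ μ k = μ · Sig δ μ' k'` (equality of subspaces, `Submodule.map_span`).
`⊆`: for `(s, G)` with `δ ∣ s ^ 2 - μ G`: `δ ∣ (s p) ^ 2 - μ ^ 2 (μ' G)`, so by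
`Helper5.HP.norm_dvd` there is `s'`, of degree `(k + 3) + (N + 3) - (2 k + 3) = k' + 3`
(`N = k + k'`), with `δ ∣ s p - μ s'`; then `δ ∣ μ ^ 2 (s' ^ 2 - μ' G)`, so `δ ∣ s' ^ 2 - μ' G`.
`⊇`: for `(s', G)` with `δ ∣ s' ^ 2 - μ' G`: `(μ s') ^ 2 ≡ μ ^ 2 μ' G ≡ p ^ 2 (μ G) (mod δ)`, so
there is `s` with `δ ∣ μ s' - p s`, and `δ ∣ s ^ 2 - μ G`.
-/

namespace Pool.Agent.Helper89.GC

open MvPolynomial Pool.Agent.Helper29.HP Pool.Agent.Helper5.HP Module

theorem finrank_Sig_eq {δ μ μ' p : P3} {k k' : ℕ} (hδ : δ.IsHomogeneous 6) (hsm : Sm δ)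
    (hμ : μ.IsHomogeneous (2 * k + 3)) (hμ' : μ'.IsHomogeneous (2 * k' + 3))
    (hp : p.IsHomogeneous (k + k' + 3)) (hpδ : ¬ δ ∣ p) (h : δ ∣ p ^ 2 - μ * μ') :
    finrank ℂ (Sig δ μ' k') = finrank ℂ (Sig δ μ k) := by
  have hirr : Irreducible δ := irreducible_of_smooth (by norm_num) hδ hsm
  have hpr : Prime δ := hirr.prime
  have hδμ : ¬ δ ∣ μ := by
    intro h1
    apply hpδ
    apply hpr.dvd_of_dvd_pow (n := 2)
    have h2 : δ ∣ μ * μ' := h1.mul_right μ'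
    have h3 := dvd_add h h2
    rwa [sub_add_cancel] at h3
  -- one inclusion
  have hA : ∀ s G : P3, s.IsHomogeneous (k + 3) → δ ∣ s ^ 2 - μ * G →
      ∃ q : P3, q.IsHomogeneous (k' + 3) ∧ δ ∣ s * p - μ * q ∧ δ ∣ q ^ 2 - μ' * G := by
    intro s G hs hsG
    obtain ⟨a, ha⟩ := hsG
    obtain ⟨b, hb⟩ := h
    have h1 : s ^ 2 = μ * G + δ * a := by linear_combination ha
    have h2 : p ^ 2 = μ * μ' + δ * b := by linear_combination hb
    obtain ⟨q, hq, hd⟩ := Pool.Agent.Helper5.HP.norm_dvd δ hδ hsm (x := s * p) (y := μ)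
      (w := μ' * G) (hs.mul hp) hμ (by omega) hδμ
      ⟨a * p ^ 2 + μ * G * b, by rw [mul_pow, h1]; linear_combination (μ * G) * h2⟩
    have hq' : q.IsHomogeneous (k' + 3) := by
      have h3 : k + 3 + (k + k' + 3) - (2 * k + 3) = k' + 3 := by omega
      rwa [h3] at hq
    refine ⟨q, hq', hd, ?_⟩
    obtain ⟨e, he⟩ := hd
    have h3 : δ ∣ μ ^ 2 * (q ^ 2 - μ' * G) := by
      refine ⟨a * p ^ 2 + μ * G * b - e * (s * p + μ * q), ?_⟩
      have h4 : (s * p) ^ 2 = (μ * G + δ * a) * p ^ 2 := by rw [mul_pow, h1]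
      linear_combination (μ * G) * h2 + h4 - (s * p + μ * q) * he
    rcases hpr.dvd_or_dvd h3 with h4 | h4
    · exact absurd (hpr.dvd_of_dvd_pow h4) hδμ
    · exact h4
  -- the other inclusion
  have hB : ∀ s G : P3, s.IsHomogeneous (k' + 3) → δ ∣ s ^ 2 - μ' * G →
      ∃ q : P3, q.IsHomogeneous (k + 3) ∧ δ ∣ μ * s - p * q ∧ δ ∣ q ^ 2 - μ * G := by
    intro s G hs hsG
    obtain ⟨a, ha⟩ := hsG
    obtain ⟨b, hb⟩ := h
    have h1 : s ^ 2 = μ' * G + δ * a := by linear_combination ha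
    have h2 : μ * μ' = p ^ 2 - δ * b := by linear_combination -hb
    obtain ⟨q, hq, hd⟩ := Pool.Agent.Helper5.HP.norm_dvd δ hδ hsm (x := μ * s) (y := p)
      (w := μ * G) (hμ.mul hs) hp (by omega) hpδ
      ⟨μ ^ 2 * a - μ * G * b, by rw [mul_pow, h1]; linear_combination (μ * G) * h2⟩
    have hq' : q.IsHomogeneous (k + 3) := by
      have h3 : 2 * k + 3 + (k' + 3) - (k + k' + 3) = k + 3 := by omega
      rwa [h3] at hq
    refine ⟨q, hq', hd, ?_⟩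
    obtain ⟨e, he⟩ := hd
    have h3 : δ ∣ p ^ 2 * (q ^ 2 - μ * G) := by
      refine ⟨μ ^ 2 * a - μ * G * b - e * (μ * s + p * q), ?_⟩
      have h4 : (μ * s) ^ 2 = μ ^ 2 * (μ' * G + δ * a) := by rw [mul_pow, h1]
      linear_combination (μ * G) * h2 + h4 - (μ * s + p * q) * he
    rcases hpr.dvd_or_dvd h3 with h4 | h4
    · exact absurd (hpr.dvd_of_dvd_pow h4) hpδ
    · exact h4
  -- the quotient
  have hprime : (Ideal.span {δ}).IsPrime := (Ideal.span_singleton_prime hirr.ne_zero).mpr hpr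
  haveI := hprime
  haveI : IsDomain (P3 ⧸ Ideal.span {δ}) := Ideal.Quotient.isDomain _
  have hmk : ∀ x : P3, Ideal.Quotient.mk (Ideal.span {δ}) x = 0 ↔ δ ∣ x := fun x => by
    rw [Ideal.Quotient.eq_zero_iff_mem, Ideal.mem_span_singleton]
  have hmk2 : ∀ x y : P3, δ ∣ x - y →
      Ideal.Quotient.mk (Ideal.span {δ}) x = Ideal.Quotient.mk (Ideal.span {δ}) y := by
    intro x y hxy
    rw [← sub_eq_zero, ← map_sub]
    exact (hmk _).mpr hxy
  set mp : P3 ⧸ Ideal.span {δ} := Ideal.Quotient.mk (Ideal.span {δ}) p with hmp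
  set mμ : P3 ⧸ Ideal.span {δ} := Ideal.Quotient.mk (Ideal.span {δ}) μ with hmμ
  have hmp0 : mp ≠ 0 := fun h0 => hpδ ((hmk _).mp h0)
  have hmμ0 : mμ ≠ 0 := fun h0 => hδμ ((hmk _).mp h0)
  have hLp : Function.Injective (LinearMap.mulLeft ℂ mp) := fun x y hxy =>
    mul_left_cancel₀ hmp0 hxy
  have hLμ : Function.Injective (LinearMap.mulLeft ℂ mμ) := fun x y hxy =>
    mul_left_cancel₀ hmμ0 hxy
  have key : (Sig δ μ' k').map (LinearMap.mulLeft ℂ mμ) =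
      (Sig δ μ k).map (LinearMap.mulLeft ℂ mp) := by
    rw [Sig, Sig, Submodule.map_span, Submodule.map_span]
    congr 1
    ext f
    constructor
    · rintro ⟨_, ⟨s, G, hs, hG, hsG, rfl⟩, rfl⟩
      obtain ⟨q, hq, hd, hqG⟩ := hB s G hs hsG
      refine ⟨_, ⟨q, G, hq, hG, hqG, rfl⟩, ?_⟩
      change mp * _ = mμ * _
      rw [hmp, hmμ, ← map_mul, ← map_mul]
      exact (hmk2 _ _ hd).symm
    · rintro ⟨_, ⟨s, G, hs, hG, hsG, rfl⟩, rfl⟩
      obtain ⟨q, hq, hd, hqG⟩ := hA s G hs hsG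
      refine ⟨_, ⟨q, G, hq, hG, hqG, rfl⟩, ?_⟩
      change mμ * _ = mp * _
      rw [hmp, hmμ, ← map_mul, ← map_mul, mul_comm p s]
      exact (hmk2 _ _ hd).symm
  rw [(Submodule.equivMapOfInjective _ hLμ (Sig δ μ' k')).finrank_eq,
    (Submodule.equivMapOfInjective _ hLp (Sig δ μ k)).finrank_eq, key]

end Pool.Agent.Helper89.GC
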