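import Mathlib
import Pool.Agent.Helper16.CubicBez
import Pool.Agent.Helper29.HP.Defs

set_option autoImplicit false

/-!
Piece G1.  Two forms without common factor have finitely many common zeros up to scaling.

Proof: by `Helper16.bezout` a family of pairwise non-proportional nonzero common zeros has at most
`m n` members; take one with the maximal number of members (compare the proof of
`Helper29.TR.exists_lin_avoid` in `Helper29/TR/St/NoeFin.lean`).
-/

namespace Pool.Agent.Helper89.GC

open MvPolynomial Pool.Agent.Helper29.HP

theorem finite_reps {f g : P3} {m n : ℕ} (hf : f.IsHomogeneous m) (hg : g.IsHomogeneous n)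
    (hrel : IsRelPrime f g) (hg0 : g ≠ 0) :
    ∃ S : Finset (Fin 3 → ℂ), (∀ w ∈ S, w ≠ 0 ∧ eval w f = 0 ∧ eval w g = 0) ∧
      ∀ z : Fin 3 → ℂ, z ≠ 0 → eval z f = 0 → eval z g = 0 →
        ∃ w ∈ S, ∃ c : ℂ, c ≠ 0 ∧ z = c • w := by
  classical
  let P : ℕ → Prop := fun N => ∃ z : Fin N → (Fin 3 → ℂ), (∀ i, z i ≠ 0) ∧
    (∀ i j, i ≠ j → z i ∉ (ℂ ∙ z j)) ∧ (∀ i, eval (z i) f = 0) ∧ (∀ i, eval (z i) g = 0)
  have hP0 : P 0 := ⟨fun i => i.elim0, fun i => i.elim0, fun i => i.elim0, fun i => i.elim0,
    fun i => i.elim0⟩
  have hbd : ∀ N, P N → N ≤ m * n := by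
    rintro N ⟨z, h0, hz, h1, h2⟩
    exact Pool.Agent.Helper16.bezout hf hg hrel hg0 z h0 hz h1 h2
  set N := Nat.findGreatest P (m * n) with hN
  have hPN : P N := Nat.findGreatest_spec (Nat.zero_le _) hP0
  have hmax : ∀ M, P M → M ≤ N := fun M hM => Nat.le_findGreatest (hbd M hM) hM
  obtain ⟨z, h0, hz, h1, h2⟩ := hPN
  have hcov : ∀ w, w ≠ 0 → eval w f = 0 → eval w g = 0 → ∃ i, w ∈ (ℂ ∙ z i) := by
    intro w hw hwf hwg
    by_contra hcon
    push Not at hcon
    have hcon' : ∀ i, z i ∉ (ℂ ∙ w) := by
      intro i hi
      rw [Submodule.mem_span_singleton] at hi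
      obtain ⟨a, ha⟩ := hi
      have ha0 : a ≠ 0 := by
        rintro rfl
        exact h0 i (by rw [← ha, zero_smul])
      apply hcon i
      rw [Submodule.mem_span_singleton]
      exact ⟨a⁻¹, by rw [← ha, smul_smul, inv_mul_cancel₀ ha0, one_smul]⟩
    have : P (N + 1) := by
      refine ⟨Fin.snoc z w, ?_, ?_, ?_, ?_⟩
      · intro i
        induction i using Fin.lastCases with
        | last => simpa using hw
        | cast i => simpa using h0 i
      · intro i j hij
        induction i using Fin.lastCases with
        | last =>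
          induction j using Fin.lastCases with
          | last => exact absurd rfl hij
          | cast j => simpa using hcon j
        | cast i =>
          induction j using Fin.lastCases with
          | last => simpa using hcon' i
          | cast j =>
            have : i ≠ j := fun h => hij (by rw [h])
            simpa using hz i j this
      · intro i
        induction i using Fin.lastCases with
        | last => simpa using hwf
        | cast i => simpa using h1 i
      · intro i
        induction i using Fin.lastCases with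
        | last => simpa using hwg
        | cast i => simpa using h2 i
    have := hmax _ this
    omega
  refine ⟨Finset.univ.image z, ?_, ?_⟩
  · intro w hw
    obtain ⟨i, -, rfl⟩ := Finset.mem_image.mp hw
    exact ⟨h0 i, h1 i, h2 i⟩
  · intro w hw hwf hwg
    obtain ⟨i, hi⟩ := hcov w hw hwf hwg
    rw [Submodule.mem_span_singleton] at hi
    obtain ⟨a, ha⟩ := hi
    refine ⟨z i, Finset.mem_image_of_mem z (Finset.mem_univ i), a, ?_, ha.symm⟩
    rintro rfl
    exact hw (by rw [← ha, zero_smul])

end Pool.Agent.Helper89.GC
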