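import Mathlib
import Pool.Agent.Helper89.GC.St.G1
import Pool.Agent.Helper16.CubicHom
import Pool.Agent.Helper29.HP.St.Irr
import Pool.Agent.Helper29.TR.St.NoeFin
import Pool.Agent.Helper89.GC.Defs

set_option autoImplicit false

/-!
Piece G7.  Improvement of `q`.

Proof.  `δ` is irreducible (`irreducible_of_smooth`).  `δ ∤ A`, because `A` does not vanish at a
common zero of `μ` and `δ` (`Helper16.exists_common_zero`, `n ≥ 1`).  `S` = representatives of the
common zeros of `A` and `δ` (G1).  `ℓ` a linear form not vanishing on `S`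
(`Helper29.TR.exists_lin_avoid`).  With `q' = q + C t * μ * ℓ ^ (N - n)`:
`p ^ 2 - δ q' ^ 2 = μ A'`, `A' = A - δ (2 t q ℓ ^ (N - n) + t ^ 2 μ ℓ ^ (2 (N - n)))`, so `A' = A` on
`δ = 0`.  For `w ∈ S`, `μ(w) ≠ 0`, so `q'(w) = 0` for at most one `t`; choose `t` outside a
finite set.
-/

namespace Pool.Agent.Helper89.GC

open MvPolynomial Pool.Agent.Helper29.HP

theorem exists_q {δ μ p q A : P3} {n N : ℕ} (hδ : δ.IsHomogeneous 6) (hsm : Sm δ)
    (hμ : μ.IsHomogeneous n) (hn : 1 ≤ n) (hN : n ≤ N)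
    (h : NE δ μ p q A N (2 * N + 6 - n)) (hA : Av δ μ A) :
    ∃ q' A' : P3, NE δ μ p q' A' N (2 * N + 6 - n) ∧ Av δ μ A' ∧ Av δ A' q' := by
  classical
  have hirr : Irreducible δ := irreducible_of_smooth (by norm_num) hδ hsm
  have hnd : ¬ δ ∣ A := by
    rintro ⟨g, hg⟩
    obtain ⟨z, hz, hz'⟩ := Pool.Agent.Helper16.exists_common_zero (![μ, δ] : Fin 2 → P3)
      (fun i => by
        fin_cases i
        · exact hom_eval_zero hμ hn
        · exact hom_eval_zero hδ (by norm_num))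
      (by simp)
    have h1 : eval z μ = 0 := hz' 0
    have h2 : eval z δ = 0 := hz' 1
    apply hA z hz h1 h2
    rw [hg, map_mul, h2, zero_mul]
  have hrel : IsRelPrime A δ :=
    ((irreducible_iff_prime.1 hirr).irreducible.isRelPrime_iff_not_dvd.2 hnd).symm
  obtain ⟨S, hS, hS'⟩ := finite_reps h.hA hδ hrel hirr.ne_zero
  obtain ⟨l, -, hl⟩ := Pool.Agent.Helper29.TR.exists_lin_avoid h.hA hδ hrel hirr.ne_zero
  obtain ⟨L, hL⟩ : ∃ L : P3, L = ∑ i, C (l (Pi.single i 1)) * X i := ⟨_, rfl⟩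
  have hLhom : L.IsHomogeneous 1 := by
    rw [hL]
    refine IsHomogeneous.sum _ _ _ fun i _ => ?_
    have := (isHomogeneous_C (Fin 3) (l (Pi.single i 1))).mul (isHomogeneous_X ℂ i)
    rwa [zero_add] at this
  have hLev : ∀ z, eval z L = l z := by
    intro z
    rw [hL, map_sum]
    have h1 : z = ∑ i, z i • (Pi.single i (1 : ℂ) : Fin 3 → ℂ) := by
      ext j
      simp [Finset.sum_apply, Pi.single_apply]
    conv_rhs => rw [h1, map_sum]
    refine Finset.sum_congr rfl fun i _ => ?_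
    rw [map_smul, map_mul, eval_C, eval_X, smul_eq_mul, mul_comm]
  have hμw : ∀ w ∈ S, eval w μ ≠ 0 := by
    intro w hw h1
    obtain ⟨h2, h3, h4⟩ := hS w hw
    exact hA w h2 h1 h4 h3
  have hLw : ∀ w ∈ S, eval w L ≠ 0 := by
    intro w hw h1
    obtain ⟨h2, h3, h4⟩ := hS w hw
    rw [hLev] at h1
    exact h2 (hl w h1 h3 h4)
  obtain ⟨t, ht⟩ := Infinite.exists_notMem_finset
    (S.image fun w => -eval w q / (eval w μ * eval w L ^ (N - n)))
  have hqw : ∀ w ∈ S, eval w q + t * (eval w μ * eval w L ^ (N - n)) ≠ 0 := by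
    intro w hw h1
    apply ht
    rw [Finset.mem_image]
    refine ⟨w, hw, ?_⟩
    rw [div_eq_iff (mul_ne_zero (hμw w hw) (pow_ne_zero _ (hLw w hw)))]
    linear_combination -h1
  have hLp : (L ^ (N - n)).IsHomogeneous (N - n) := by
    have := hLhom.pow (N - n)
    rwa [one_mul] at this
  have hLp2 : (L ^ (2 * (N - n))).IsHomogeneous (2 * (N - n)) := by
    have := hLhom.pow (2 * (N - n))
    rwa [one_mul] at this
  have hCh : ∀ (c : ℂ) {f : P3} {d : ℕ}, f.IsHomogeneous d → (C c * f).IsHomogeneous d := by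
    intro c f d hf
    have := (isHomogeneous_C (Fin 3) c).mul hf
    rwa [zero_add] at this
  obtain ⟨q', hq'⟩ : ∃ q' : P3, q' = q + C t * (μ * L ^ (N - n)) := ⟨_, rfl⟩
  obtain ⟨A', hA'⟩ : ∃ A' : P3, A' = A - δ * (C (2 * t) * (q * L ^ (N - n)) +
    C (t ^ 2) * (μ * L ^ (2 * (N - n)))) := ⟨_, rfl⟩
  have hq'hom : q'.IsHomogeneous N := by
    rw [hq']
    refine h.hq.add (hCh t ?_)
    have := hμ.mul hLp
    rwa [Nat.add_sub_cancel' hN] at this
  have hAe : ∀ z, eval z δ = 0 → eval z A' = eval z A := by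
    intro z hz
    rw [hA', map_sub, map_mul, hz, zero_mul, sub_zero]
  refine ⟨q', A', ⟨h.hp, hq'hom, ?_, ?_⟩, ?_, ?_⟩
  · rw [hA']
    refine h.hA.sub ?_
    have h1 : (C (2 * t) * (q * L ^ (N - n)) + C (t ^ 2) * (μ * L ^ (2 * (N - n))) :
        P3).IsHomogeneous (N + (N - n)) := by
      refine (hCh _ (h.hq.mul hLp)).add (hCh _ ?_)
      have := hμ.mul hLp2
      have e : n + 2 * (N - n) = N + (N - n) := by omega
      rwa [e] at this
    have := hδ.mul h1
    have e : 6 + (N + (N - n)) = 2 * N + 6 - n := by omega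
    rwa [e] at this
  · rw [hq', hA']
    have e := h.eq
    have e2 : L ^ (2 * (N - n)) = L ^ (N - n) * L ^ (N - n) := by rw [two_mul, pow_add]
    rw [e2, map_mul, map_pow]
    have e3 : (C (2 : ℂ) : P3) = 2 := by
      rw [map_ofNat]
    rw [e3]
    linear_combination e
  · intro z hz h1 h2
    rw [hAe z h2]
    exact hA z hz h1 h2
  · intro z hz h1 h2
    rw [hAe z h2] at h1
    obtain ⟨w, hw, c, hc, rfl⟩ := hS' z hz h1 h2
    rw [Pool.Agent.Helper16.eval_smul_hom hq'hom]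
    refine mul_ne_zero (pow_ne_zero _ hc) ?_
    rw [hq', map_add, map_mul, map_mul, map_pow, eval_C]
    exact hqw w hw

end Pool.Agent.Helper89.GC
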