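import Mathlib
import Pool.Agent.Helper89.GC.St.G1
import Pool.Agent.Helper29.HP.St.EvenOn
import Pool.Agent.Helper89.GC.Defs

set_option autoImplicit false

/-!
Piece G8.  The exceptional parameters of the family `A + 2 t p L + t ^ 2 μ L ^ 2`.

Proof.  `δ` is irreducible.  `δ ∤ μ` (otherwise `A` would vanish nowhere on `δ = 0`, impossible as
`A` and `δ` have a common zero, the degree of `A` being positive) and `δ ∤ q` (`q` does not vanish
at a common zero of `A` and `δ`).  `S₀` = representatives of the common zeros of `δ` and `μ q`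
(G1).  For `w ∈ S₀` the polynomial `A(w) + 2 t p(w) L(w) + t ^ 2 μ(w) L(w) ^ 2` in `t` is not zero,
because `A(w) ≠ 0`: if `μ(w) = 0` this is `Av δ μ A`, if `q(w) = 0` it is `Av δ A q`.  So it has
finitely many roots; `S` is the union of the root sets.  The degree of `L` has to be `N + 3 - n`:
then the members of the family are forms.
-/

namespace Pool.Agent.Helper89.GC

open MvPolynomial Pool.Agent.Helper29.HP

theorem pencil_exc {δ μ p q A L : P3} {n N : ℕ} (hδ : δ.IsHomogeneous 6) (hsm : Sm δ)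
    (hμ : μ.IsHomogeneous n) (hn : 1 ≤ n) (hN : n ≤ N)
    (h : NE δ μ p q A N (2 * N + 6 - n)) (hA : Av δ μ A) (hq : Av δ A q)
    (hL : L.IsHomogeneous (N + 3 - n)) :
    ∃ S : Set ℂ, S.Finite ∧ ∀ t, t ∉ S → ∀ z : Fin 3 → ℂ, z ≠ 0 → eval z δ = 0 →
      eval z (A + C (2 * t) * (p * L) + C (t ^ 2) * (μ * L ^ 2)) = 0 →
        eval z μ ≠ 0 ∧ eval z q ≠ 0 := by
  classical
  have hirr : Irreducible δ := irreducible_of_smooth (by norm_num) hδ hsm
  -- a common zero of `A` and `δ`
  obtain ⟨x, hx0, hxA, hxδ⟩ : ∃ x : Fin 3 → ℂ, x ≠ 0 ∧ eval x A = 0 ∧ eval x δ = 0 := by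
    obtain ⟨x, hx, hxz⟩ := Pool.Agent.Helper16.exists_common_zero (σ := Fin 3) ![A, δ]
      (by
        intro i
        fin_cases i
        · exact hom_eval_zero h.hA (by omega)
        · exact hom_eval_zero hδ (by norm_num)) (by simp)
    exact ⟨x, hx, hxz 0, hxz 1⟩
  have hμδ : ¬ δ ∣ μ := by
    rintro ⟨r, hr⟩
    exact hA x hx0 (by rw [hr, map_mul, hxδ, zero_mul]) hxδ hxA
  have hqδ : ¬ δ ∣ q := by
    rintro ⟨r, hr⟩
    exact hq x hx0 hxA hxδ (by rw [hr, map_mul, hxδ, zero_mul])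
  have hprod : ¬ δ ∣ μ * q := by
    intro hd
    rcases hirr.prime.dvd_or_dvd hd with h1 | h1
    · exact hμδ h1
    · exact hqδ h1
  have hrel : IsRelPrime δ (μ * q) := (hirr.isRelPrime_iff_not_dvd).2 hprod
  have hne : μ * q ≠ 0 := by
    intro h0
    exact hprod (by rw [h0]; exact dvd_zero _)
  obtain ⟨S₀, hS₀, hcov⟩ := finite_reps hδ (hμ.mul h.hq) hrel hne
  -- the polynomials in `t`
  let Q : (Fin 3 → ℂ) → Polynomial ℂ := fun w =>
    Polynomial.C (eval w A) + Polynomial.C (2 * (eval w p * eval w L)) * Polynomial.X +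
      Polynomial.C (eval w μ * eval w L ^ 2) * Polynomial.X ^ 2
  have hQ : ∀ w ∈ S₀, Q w ≠ 0 := by
    intro w hw h0
    obtain ⟨hw0, hwδ, hwμ⟩ := hS₀ w hw
    have hA0 : eval w A ≠ 0 := by
      rw [map_mul, mul_eq_zero] at hwμ
      rcases hwμ with h1 | h1
      · exact hA w hw0 h1 hwδ
      · intro h2
        exact hq w hw0 h2 hwδ h1
    apply hA0
    have h1 : (Q w).coeff 0 = eval w A := by
      simp [Q]
    rw [← h1, h0, Polynomial.coeff_zero]
  have hFh : ∀ t : ℂ, (A + C (2 * t) * (p * L) + C (t ^ 2) * (μ * L ^ 2)).IsHomogeneous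
      (2 * N + 6 - n) := by
    intro t
    have e2 : (C (2 * t) * (p * L)).IsHomogeneous (2 * N + 6 - n) := by
      have := (h.hp.mul hL).C_mul (2 * t)
      have e : N + 3 + (N + 3 - n) = 2 * N + 6 - n := by omega
      rwa [e] at this
    have e3 : (C (t ^ 2) * (μ * L ^ 2)).IsHomogeneous (2 * N + 6 - n) := by
      have := (hμ.mul (hL.pow 2)).C_mul (t ^ 2)
      have e : n + (N + 3 - n) * 2 = 2 * N + 6 - n := by omega
      rwa [e] at this
    exact (h.hA.add e2).add e3
  refine ⟨⋃ w ∈ S₀, {t : ℂ | (Q w).IsRoot t}, ?_, ?_⟩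
  · exact Set.Finite.biUnion S₀.finite_toSet fun w hw => Polynomial.finite_setOfPred_isRoot (hQ w hw)
  · intro t ht z hz0 hzδ hzF
    have hcon : eval z (μ * q) ≠ 0 := by
      intro hzμ
      obtain ⟨w, hw, c, hc, rfl⟩ := hcov z hz0 hzδ hzμ
      apply ht
      simp only [Set.mem_iUnion]
      refine ⟨w, hw, ?_⟩
      rw [eo_eval_smul (hFh t)] at hzF
      have h1 := (mul_eq_zero.1 hzF).resolve_left (pow_ne_zero _ hc)
      change (Q w).eval t = 0
      simp only [Q, Polynomial.eval_add, Polynomial.eval_mul, Polynomial.eval_C, Polynomial.eval_X,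
        Polynomial.eval_pow]
      simp only [map_add, map_mul, map_pow, eval_C] at h1
      linear_combination h1
    rw [map_mul] at hcon
    exact ⟨left_ne_zero_of_mul hcon, right_ne_zero_of_mul hcon⟩

end Pool.Agent.Helper89.GC
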