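import Pool.Agent.Helper89.GC.Defs
import Pool.Agent.Helper29.HP.Main

set_option autoImplicit false

/-!
Piece G2.  A square root of `δ` modulo `μ`, for `μ` arbitrary.

Proof.  Work with forms.
(a) `μ = π` irreducible: `hom_sq3` (`Helper29/HP/Main.lean`); a factor of a form is a form
(`Helper16.hom_factor`), `π ∤ δ` because otherwise `π ~ δ ∣ μ`.
(b) `μ = π ^ k` : with `(g + w h) ^ k = g_k + w h_k`, `w ^ 2 = δ`, one has
`g_k ^ 2 - δ h_k ^ 2 = (g ^ 2 - δ h ^ 2) ^ k`, divisible by `π ^ k`, and modulo `π`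
`h_k ≡ 2 ^ (k - 1) h g ^ (k - 1)`, `π ∤ g` (as `π ∤ δ h`).  It is easiest by recursion:
`g_{k+1} = g g_k + δ h h_k`, `h_{k+1} = g h_k + h g_k`, with `h g_k ≡ g h_k (mod π)`, so
`h_{k+1} ≡ 2 g h_k (mod π)`.
(c) `μ = μ₁ μ₂`, `IsRelPrime μ₁ μ₂`, `(g₁, h₁)`, `(g₂, h₂)` for the factors:
`g = μ₂ a g₁ + μ₁ b g₂`, `h = μ₂ a h₁ + μ₁ b h₂` with `a`, `b` powers of a linear form which does
not divide `μ`, making the degrees equal.
(d) `μ` arbitrary: induction over coprime products (`UniqueFactorizationMonoid.induction_on_coprime`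
or induction on the degree).
-/

namespace Pool.Agent.Helper89.GC

open MvPolynomial Pool.Agent.Helper29.HP

namespace G2

/-- the conclusion of the piece -/
def Pair (δ μ : P3) : Prop :=
  ∃ (e : ℕ) (g h : P3), g.IsHomogeneous (e + 3) ∧ h.IsHomogeneous e ∧ IsRelPrime h μ ∧
      μ ∣ g ^ 2 - δ * h ^ 2

theorem pair_unit {δ μ : P3} (h : IsUnit μ) : Pair δ μ :=
  ⟨0, 0, 1, isHomogeneous_zero _ _ _, isHomogeneous_one _ _, isRelPrime_one_left, h.dvd⟩

/-- a linear form which does not divide `μ` -/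
theorem exists_lin {μ : P3} (hμ : μ ≠ 0) :
    ∃ l : P3, l.IsHomogeneous 1 ∧ Irreducible l ∧ ¬ l ∣ μ := by
  obtain ⟨z, hz⟩ : ∃ z : Fin 3 → ℂ, eval z μ ≠ 0 := by
    by_contra hc
    push Not at hc
    exact hμ (MvPolynomial.funext fun z => by rw [hc z, map_zero])
  by_cases h0 : z 0 = 0
  · refine ⟨X 0, isHomogeneous_X _ _, (MvPolynomial.X_prime (i := (0 : Fin 3)) (R := ℂ)).irreducible, ?_⟩
    rintro ⟨c, rfl⟩
    apply hz
    simp [h0]
  · set l : P3 := C (z 1) * X 0 - C (z 0) * X 1 with hl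
    have hhom : l.IsHomogeneous 1 := by
      have h1 : (C (z 1) * X 0 : P3).IsHomogeneous 1 := by
        have := (isHomogeneous_C (Fin 3) (z 1)).mul (isHomogeneous_X ℂ (0 : Fin 3))
        simpa using this
      have h2 : (C (z 0) * X 1 : P3).IsHomogeneous 1 := by
        have := (isHomogeneous_C (Fin 3) (z 0)).mul (isHomogeneous_X ℂ (1 : Fin 3))
        simpa using this
      exact h1.sub h2
    have hco : coeff (Finsupp.single 1 1) l = - z 0 := by
      rw [hl, coeff_sub, coeff_C_mul, coeff_C_mul, coeff_X, coeff_X, if_neg, if_pos rfl]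
      · ring
      · intro h
        have := Finsupp.single_left_injective one_ne_zero h
        exact absurd this (by decide)
    have hl0 : l ≠ 0 := by
      intro h
      rw [h, coeff_zero] at hco
      exact h0 (neg_eq_zero.1 hco.symm)
    refine ⟨l, hhom, ?_, ?_⟩
    · refine irreducible_of_totalDegree_eq_one (hhom.totalDegree hl0) ?_
      intro x hx
      have := hx (Finsupp.single 1 1)
      rw [hco] at this
      exact isUnit_of_dvd_unit this (IsUnit.mk0 _ (neg_ne_zero.2 h0))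
    · rintro ⟨c, hc⟩
      apply hz
      rw [hc, map_mul]
      have : eval z l = 0 := by
        rw [hl]
        simp
        ring
      rw [this, zero_mul]

theorem isRelPrime_of_not_dvd {π h : P3} (hπ : Irreducible π) (hh : ¬ π ∣ h) : IsRelPrime h π := by
  intro d hd1 hd2
  obtain ⟨c, hc⟩ := hd2
  rcases hπ.isUnit_or_isUnit hc with h1 | h1
  · exact h1
  · exfalso
    apply hh
    obtain ⟨u, rfl⟩ := h1
    rw [hc]
    exact (Units.mul_right_dvd).2 hd1

/-- prime powers -/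
theorem pair_pow {δ π g h : P3} {e : ℕ} (hδ : δ.IsHomogeneous 6) (hπ : Irreducible π)
    (hπδ : ¬ π ∣ δ) (hg : g.IsHomogeneous (e + 3)) (hh : h.IsHomogeneous e) (hπh : ¬ π ∣ h)
    (hdvd : π ∣ g ^ 2 - δ * h ^ 2) (k : ℕ) :
    ∃ (e' : ℕ) (g' h' : P3), g'.IsHomogeneous (e' + 3) ∧ h'.IsHomogeneous e' ∧ ¬ π ∣ h' ∧
      π ^ (k + 1) ∣ g' ^ 2 - δ * h' ^ 2 ∧ π ∣ h * g' - g * h' := by
  have hπp : Prime π := hπ.prime
  have hπg : ¬ π ∣ g := by
    intro hd
    have h1 : π ∣ δ * h ^ 2 := by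
      have h2 : π ∣ g ^ 2 := dvd_pow hd two_ne_zero
      have := dvd_sub h2 hdvd
      rwa [sub_sub_cancel] at this
    rcases hπp.dvd_or_dvd h1 with h2 | h2
    · exact hπδ h2
    · exact hπh (hπp.dvd_of_dvd_pow h2)
  induction k with
  | zero => exact ⟨e, g, h, hg, hh, hπh, by simpa using hdvd, by
      rw [mul_comm h g, sub_self]; exact dvd_zero _⟩
  | succ k ih =>
    obtain ⟨e', g', h', hg', hh', hπh', hd', hcr⟩ := ih
    refine ⟨e + e' + 3, g * g' + δ * h * h', g * h' + h * g', ?_, ?_, ?_, ?_, ?_⟩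
    · have h1 := hg.mul hg'
      have h2 := (hδ.mul hh).mul hh'
      have e1 : e + 3 + (e' + 3) = e + e' + 3 + 3 := by ring
      have e2 : 6 + e + e' = e + e' + 3 + 3 := by ring
      rw [e1] at h1
      rw [e2] at h2
      exact h1.add h2
    · have h1 := hg.mul hh'
      have h2 := hh.mul hg'
      have e1 : e + 3 + e' = e + e' + 3 := by ring
      have e2 : e + (e' + 3) = e + e' + 3 := by ring
      rw [e1] at h1
      rw [e2] at h2
      exact h1.add h2
    · intro hd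
      have h1 : π ∣ 2 * (g * h') := by
        have := dvd_sub hd hcr
        have e3 : g * h' + h * g' - (h * g' - g * h') = 2 * (g * h') := by ring
        rwa [e3] at this
      rcases hπp.dvd_or_dvd h1 with h2 | h2
      · have hu : IsUnit (2 : P3) := by
          have h5 : (2 : P3) = C (2 : ℂ) := (map_ofNat C 2).symm
          rw [h5]
          exact (IsUnit.mk0 (2 : ℂ) two_ne_zero).map C
        exact hπ.not_isUnit (isUnit_of_dvd_unit h2 hu)
      · rcases hπp.dvd_or_dvd h2 with h3 | h3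
        · exact hπg h3
        · exact hπh' h3
    · have e4 : (g * g' + δ * h * h') ^ 2 - δ * (g * h' + h * g') ^ 2 =
          (g' ^ 2 - δ * h' ^ 2) * (g ^ 2 - δ * h ^ 2) := by ring
      rw [e4, pow_succ]
      exact mul_dvd_mul hd' hdvd
    · have e5 : h * (g * g' + δ * h * h') - g * (g * h' + h * g') =
          -(h' * (g ^ 2 - δ * h ^ 2)) := by ring
      rw [e5]
      exact (dvd_neg).2 (Dvd.dvd.mul_left hdvd h')

/-- coprime products -/
theorem pair_mul {δ x y : P3} {dx dy : ℕ} (hx : x.IsHomogeneous dx) (hy : y.IsHomogeneous dy)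
    (hx0 : x ≠ 0) (hy0 : y ≠ 0) (hxy : IsRelPrime x y) (h1 : Pair δ x) (h2 : Pair δ y) :
    Pair δ (x * y) := by
  obtain ⟨e₁, g₁, h₁, hg₁, hh₁, hr₁, hd₁⟩ := h1
  obtain ⟨e₂, g₂, h₂, hg₂, hh₂, hr₂, hd₂⟩ := h2
  obtain ⟨l, hl1, hlirr, hld⟩ := exists_lin (mul_ne_zero hx0 hy0)
  have hlx : IsRelPrime l x := (isRelPrime_of_not_dvd hlirr
    (fun h => hld (Dvd.dvd.mul_right h y))).symm
  have hly : IsRelPrime l y := (isRelPrime_of_not_dvd hlirr
    (fun h => hld (Dvd.dvd.mul_left h x))).symm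
  have ha := hl1.pow (dx + e₂)
  have hb := hl1.pow (dy + e₁)
  rw [one_mul] at ha hb
  refine ⟨dx + dy + e₁ + e₂, y * l ^ (dx + e₂) * g₁ + x * l ^ (dy + e₁) * g₂,
    y * l ^ (dx + e₂) * h₁ + x * l ^ (dy + e₁) * h₂, ?_, ?_, ?_, ?_⟩
  · have t1 := (hy.mul ha).mul hg₁
    have t2 := (hx.mul hb).mul hg₂
    have e1 : dy + (dx + e₂) + (e₁ + 3) = dx + dy + e₁ + e₂ + 3 := by ring
    have e2 : dx + (dy + e₁) + (e₂ + 3) = dx + dy + e₁ + e₂ + 3 := by ring
    rw [e1] at t1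
    rw [e2] at t2
    exact t1.add t2
  · have t1 := (hy.mul ha).mul hh₁
    have t2 := (hx.mul hb).mul hh₂
    have e1 : dy + (dx + e₂) + e₁ = dx + dy + e₁ + e₂ := by ring
    have e2 : dx + (dy + e₁) + e₂ = dx + dy + e₁ + e₂ := by ring
    rw [e1] at t1
    rw [e2] at t2
    exact t1.add t2
  · refine IsRelPrime.mul_right ?_ ?_
    · -- relatively prime to `x`
      have r1 : IsRelPrime (y * l ^ (dx + e₂) * h₁) x :=
        IsRelPrime.mul_left (IsRelPrime.mul_left hxy.symm (IsRelPrime.pow_left hlx)) hr₁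
      intro d hd1 hd2
      refine r1 ?_ hd2
      have : d ∣ x * l ^ (dy + e₁) * h₂ := by
        rw [mul_assoc]; exact Dvd.dvd.mul_right hd2 _
      exact (dvd_add_left this).1 hd1
    · have r1 : IsRelPrime (x * l ^ (dy + e₁) * h₂) y :=
        IsRelPrime.mul_left (IsRelPrime.mul_left hxy (IsRelPrime.pow_left hly)) hr₂
      intro d hd1 hd2
      refine r1 ?_ hd2
      have : d ∣ y * l ^ (dx + e₂) * h₁ := by
        rw [mul_assoc]; exact Dvd.dvd.mul_right hd2 _
      exact (dvd_add_right this).1 hd1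
  · refine IsRelPrime.mul_dvd hxy ?_ ?_
    · have e4 : (y * l ^ (dx + e₂) * g₁ + x * l ^ (dy + e₁) * g₂) ^ 2 -
          δ * (y * l ^ (dx + e₂) * h₁ + x * l ^ (dy + e₁) * h₂) ^ 2 =
          (y * l ^ (dx + e₂)) ^ 2 * (g₁ ^ 2 - δ * h₁ ^ 2) +
          x * (2 * (y * l ^ (dx + e₂)) * l ^ (dy + e₁) * (g₁ * g₂ - δ * h₁ * h₂) +
            x * (l ^ (dy + e₁)) ^ 2 * (g₂ ^ 2 - δ * h₂ ^ 2)) := by ring
      rw [e4]
      exact dvd_add (Dvd.dvd.mul_left hd₁ _) (dvd_mul_right _ _)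
    · have e4 : (y * l ^ (dx + e₂) * g₁ + x * l ^ (dy + e₁) * g₂) ^ 2 -
          δ * (y * l ^ (dx + e₂) * h₁ + x * l ^ (dy + e₁) * h₂) ^ 2 =
          (x * l ^ (dy + e₁)) ^ 2 * (g₂ ^ 2 - δ * h₂ ^ 2) +
          y * (2 * (x * l ^ (dy + e₁)) * l ^ (dx + e₂) * (g₁ * g₂ - δ * h₁ * h₂) +
            y * (l ^ (dx + e₂)) ^ 2 * (g₁ ^ 2 - δ * h₁ ^ 2)) := by ring
      rw [e4]
      exact dvd_add (Dvd.dvd.mul_left hd₂ _) (dvd_mul_right _ _)

end G2

open G2 in
theorem exists_pair_all {δ μ : P3} {n : ℕ} (hδ : δ.IsHomogeneous 6) (hδi : Irreducible δ)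
    (hμ : μ.IsHomogeneous n) (hμδ : ¬ δ ∣ μ) (hsp : Spl δ μ) :
    ∃ (e : ℕ) (g h : P3), g.IsHomogeneous (e + 3) ∧ h.IsHomogeneous e ∧ IsRelPrime h μ ∧
      μ ∣ g ^ 2 - δ * h ^ 2 := by
  have key : ∀ μ : P3, ∀ n : ℕ, μ.IsHomogeneous n → ¬ δ ∣ μ → Spl δ μ → Pair δ μ := by
    intro μ
    refine UniqueFactorizationMonoid.induction_on_coprime
      (P := fun μ : P3 => ∀ n : ℕ, μ.IsHomogeneous n → ¬ δ ∣ μ → Spl δ μ → Pair δ μ) μ ?_ ?_ ?_ ?_
    · intro n _ h _
      exact absurd (dvd_zero δ) h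
    · intro x hx n _ _ _
      exact pair_unit hx
    · intro p i hp n hhom hnd hs
      rcases Nat.eq_zero_or_pos i with rfl | hi
      · rw [pow_zero]
        exact pair_unit isUnit_one
      · obtain ⟨k, rfl⟩ : ∃ k, i = k + 1 := ⟨i - 1, by omega⟩
        obtain ⟨a, b, ha, -, -⟩ : ∃ a b, p.IsHomogeneous a ∧ (p ^ k).IsHomogeneous b ∧ a + b = n := by
          apply Pool.Agent.Helper16.hom_factor
          · rw [← pow_succ']
            exact hhom
          · exact mul_ne_zero hp.ne_zero (pow_ne_zero _ hp.ne_zero)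
        have hpd : p ∣ p ^ (k + 1) := dvd_pow_self p (by omega)
        have hpδ : ¬ p ∣ δ := by
          intro h
          apply hnd
          have : Associated p δ := hp.irreducible.associated_of_dvd hδi h
          exact this.symm.dvd.trans hpd
        obtain ⟨g, h, hh, hg⟩ := hs p hp.irreducible hpd
        obtain ⟨d, g', h', hg', hh', hnh', hd'⟩ := hom_sq3 ha hp.irreducible hδ hh hg
        obtain ⟨e', g'', h'', c1, c2, c3, c4, -⟩ :=
          pair_pow hδ hp.irreducible hpδ hg' hh' hnh' hd' k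
        exact ⟨e', g'', h'', c1, c2, IsRelPrime.pow_right (isRelPrime_of_not_dvd hp.irreducible c3),
          c4⟩
    · intro x y hxy hx hy n hhom hnd hs
      have hxy0 : x * y ≠ 0 := fun h => hnd (by rw [h]; exact dvd_zero δ)
      have hx0 : x ≠ 0 := left_ne_zero_of_mul hxy0
      have hy0 : y ≠ 0 := right_ne_zero_of_mul hxy0
      obtain ⟨a, b, ha, hb, -⟩ := Pool.Agent.Helper16.hom_factor hhom hxy0
      refine pair_mul ha hb hx0 hy0 hxy (hx a ha ?_ ?_) (hy b hb ?_ ?_)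
      · exact fun h => hnd (Dvd.dvd.mul_right h y)
      · exact fun π h1 h2 => hs π h1 (Dvd.dvd.mul_right h2 y)
      · exact fun h => hnd (Dvd.dvd.mul_left h x)
      · exact fun π h1 h2 => hs π h1 (Dvd.dvd.mul_left h2 x)
  exact key μ n hμ hμδ hsp

end Pool.Agent.Helper89.GC
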