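import Mathlib
import Pool.Agent.Helper29.HP.Defs

set_option autoImplicit false

/-!
Piece G3.  The module `I = {(p, q) : f ∣ p a - q b}` over `R = ℂ[X₀, X₁]` is generated by two
elements near `z`.

Proof.  Put `x' = X 0 - C (z 0)`, a prime of `R` which does not divide `f`.
(1) `x' v ∈ I` implies `v ∈ I`.
(2) The image of `I` in `(R / x') ^ 2` is a submodule of a free module of rank two over a principal
ideal domain (`R / x' ≅ ℂ[Y]`), so it is generated by two elements.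
Lift them to `f₁ = (p₁, q₁)`, `f₂ = (p₂, q₂)` in `I`.
(3) By (1), `I ≤ span {f₁, f₂} + x' I`; Nakayama gives `r ∈ R` with `r - 1 ∈ (x')` and
`r I ⊆ span {f₁, f₂}`.
(4) `a (p₁ q₂ - p₂ q₁) ≡ 0 (mod f)`, and `a` is coprime to `f`: `p₁ q₂ - p₂ q₁ = f κ`.
(5) Apply (3) to the pairs of elements `(f, 0), (0, f)` and `(f, 0), (b, a)` of `I` and take
determinants: `κ ∣ r ^ 2 f`, `κ ∣ r ^ 2 a` (cancel one `f`).
(6) If `κ(z) = 0` then an irreducible factor `ρ` of `κ` vanishes at `z`; `r(z) = 1`, so `ρ ∤ r`,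
so `ρ ∣ f` and `ρ ∣ a`, contradicting `IsRelPrime a f`.
-/

namespace Pool.Agent.Helper89.GC

open MvPolynomial Pool.Agent.Helper29.HP

/-- restriction to the line `X 0 = c` -/
noncomputable def g3rho (c : ℂ) : P2 →ₐ[ℂ] Polynomial ℂ :=
  aeval ![Polynomial.C c, Polynomial.X]

/-- extension of a polynomial in `X 1` -/
noncomputable def g3sig : Polynomial ℂ →ₐ[ℂ] P2 := Polynomial.aeval (X 1)

lemma g3_rho_zero (c : ℂ) : g3rho c (X 0) = Polynomial.C c := by simp [g3rho]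

lemma g3_rho_one (c : ℂ) : g3rho c (X 1) = Polynomial.X := by simp [g3rho]

lemma g3_rho_sig (c : ℂ) (s : Polynomial ℂ) : g3rho c (g3sig s) = s := by
  have : (g3rho c).comp g3sig = AlgHom.id ℂ (Polynomial ℂ) := by
    apply Polynomial.algHom_ext
    simp [g3sig, g3_rho_one]
  exact DFunLike.congr_fun this s

lemma g3_surj (c : ℂ) : Function.Surjective (g3rho c) := fun s => ⟨g3sig s, g3_rho_sig c s⟩

lemma g3_dvd (c : ℂ) (p : P2) : X 0 - C c ∣ p - g3sig (g3rho c p) := by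
  have : (Ideal.Quotient.mkₐ ℂ (Ideal.span {(X 0 - C c : P2)})) =
      (Ideal.Quotient.mkₐ ℂ (Ideal.span {(X 0 - C c : P2)})).comp (g3sig.comp (g3rho c)) := by
    apply MvPolynomial.algHom_ext
    intro i
    fin_cases i
    · simp only [AlgHom.comp_apply]
      change Ideal.Quotient.mk _ (X 0) = Ideal.Quotient.mk _ (g3sig (g3rho c (X 0)))
      rw [g3_rho_zero, Ideal.Quotient.eq, Ideal.mem_span_singleton]
      simp [g3sig, MvPolynomial.algebraMap_eq]
    · simp only [AlgHom.comp_apply]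
      change Ideal.Quotient.mk _ (X 1) = Ideal.Quotient.mk _ (g3sig (g3rho c (X 1)))
      rw [g3_rho_one]
      simp [g3sig]
  have h := DFunLike.congr_fun this p
  change Ideal.Quotient.mk _ p = Ideal.Quotient.mk _ (g3sig (g3rho c p)) at h
  rwa [Ideal.Quotient.eq, Ideal.mem_span_singleton] at h

lemma g3_dvd_iff (c : ℂ) (p : P2) : X 0 - C c ∣ p ↔ g3rho c p = 0 := by
  constructor
  · rintro ⟨q, rfl⟩
    rw [map_mul, map_sub, g3_rho_zero]
    simp [g3rho]
  · intro h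
    have := g3_dvd c p
    rwa [h, map_zero, sub_zero] at this

lemma g3_prime (c : ℂ) : Prime (X 0 - C c : P2) := by
  refine ⟨?_, ?_, ?_⟩
  · intro h
    have h1 := congrArg (eval (fun _ => c + 1)) h
    simp at h1
  · intro h
    have h1 : g3rho c (X 0 - C c) = 0 := (g3_dvd_iff c _).1 dvd_rfl
    have h2 := h.map (g3rho c)
    rw [h1] at h2
    exact not_isUnit_zero h2
  · intro p q h
    rw [g3_dvd_iff, map_mul, mul_eq_zero] at h
    rwa [g3_dvd_iff, g3_dvd_iff]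

/-- the module of pairs -/
def g3I (f a b : P2) : Submodule P2 (P2 × P2) where
  carrier := {v | f ∣ v.1 * a - v.2 * b}
  add_mem' := by
    intro v w hv hw
    have := dvd_add hv hw
    have e : v.1 * a - v.2 * b + (w.1 * a - w.2 * b) = (v + w).1 * a - (v + w).2 * b := by
      simp only [Prod.fst_add, Prod.snd_add]; ring
    rw [e] at this
    exact this
  zero_mem' := by simp
  smul_mem' := by
    intro c v hv
    have := hv.mul_left c
    have e : c * (v.1 * a - v.2 * b) = (c • v).1 * a - (c • v).2 * b := by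
      simp only [Prod.smul_fst, Prod.smul_snd, smul_eq_mul]; ring
    rw [e] at this
    exact this

lemma g3_mem {f a b : P2} {v : P2 × P2} : v ∈ g3I f a b ↔ f ∣ v.1 * a - v.2 * b := Iff.rfl

lemma g3_cancel {f a b : P2} {c : ℂ} (hx : ¬ (X 0 - C c) ∣ f) {v : P2 × P2}
    (h : (X 0 - C c : P2) • v ∈ g3I f a b) : v ∈ g3I f a b := by
  rw [g3_mem] at h ⊢
  have e : ((X 0 - C c : P2) • v).1 * a - ((X 0 - C c : P2) • v).2 * b
      = (X 0 - C c) * (v.1 * a - v.2 * b) := by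
    simp only [Prod.smul_fst, Prod.smul_snd, smul_eq_mul]; ring
  rw [e] at h
  have h1 : IsRelPrime (X 0 - C c : P2) f :=
    ((g3_prime c).irreducible.isRelPrime_iff_not_dvd).2 hx
  exact h1.symm.dvd_of_dvd_mul_left h

/-- two elements generating the module modulo `X 0 - C c` -/
lemma g3_gens {f a b : P2} {c : ℂ} (hx : ¬ (X 0 - C c) ∣ f) :
    ∃ v w : P2 × P2, v ∈ g3I f a b ∧ w ∈ g3I f a b ∧
      ∀ u ∈ g3I f a b, ∃ s t : P2, ∃ u' ∈ g3I f a b, u = s • v + t • w + (X 0 - C c : P2) • u' := by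
  let Iq : Ideal P2 := Submodule.map (LinearMap.snd P2 P2 P2) (g3I f a b)
  let Ip : Ideal P2 := Submodule.map (LinearMap.fst P2 P2 P2)
    (g3I f a b ⊓ Submodule.comap (LinearMap.snd P2 P2 P2) (Ideal.span {(X 0 - C c : P2)}))
  have hp := IsPrincipalIdealRing.principal (Ideal.map (g3rho c) Ip)
  have hq := IsPrincipalIdealRing.principal (Ideal.map (g3rho c) Iq)
  obtain ⟨⟨s1, h1⟩⟩ := hp
  obtain ⟨⟨s2, h2⟩⟩ := hq
  have m1 : s1 ∈ Ideal.map (g3rho c) Ip := by rw [h1]; exact Submodule.mem_span_singleton_self s1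
  have m2 : s2 ∈ Ideal.map (g3rho c) Iq := by rw [h2]; exact Submodule.mem_span_singleton_self s2
  rw [Ideal.mem_map_iff_of_surjective _ (g3_surj c)] at m1 m2
  obtain ⟨_, ⟨v, ⟨hv, hv0⟩, rfl⟩, rfl⟩ := m1
  obtain ⟨_, ⟨w, hw, rfl⟩, rfl⟩ := m2
  have hv2 : g3rho c v.2 = 0 := by
    rw [← g3_dvd_iff, ← Ideal.mem_span_singleton]
    exact hv0
  refine ⟨v, w, hv, hw, fun u hu => ?_⟩
  have k2 : g3rho c u.2 ∈ Ideal.map (g3rho c) Iq := Ideal.mem_map_of_mem _ ⟨u, hu, rfl⟩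
  rw [h2] at k2
  obtain ⟨t', ht'⟩ := Submodule.mem_span_singleton.1 k2
  obtain ⟨t, rfl⟩ := g3_surj c t'
  change g3rho c t * g3rho c w.2 = g3rho c u.2 at ht'
  have hu1 : u - t • w ∈ g3I f a b := sub_mem hu (Submodule.smul_mem _ _ hw)
  have hu2 : g3rho c (u - t • w).2 = 0 := by
    simp only [Prod.snd_sub, Prod.smul_snd, smul_eq_mul, map_sub, map_mul]
    rw [ht', sub_self]
  have k1 : g3rho c (u - t • w).1 ∈ Ideal.map (g3rho c) Ip := by
    refine Ideal.mem_map_of_mem _ ⟨u - t • w, ⟨hu1, ?_⟩, rfl⟩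
    change (u - t • w).2 ∈ Ideal.span {(X 0 - C c : P2)}
    rw [Ideal.mem_span_singleton, g3_dvd_iff]
    exact hu2
  rw [h1] at k1
  obtain ⟨s', hs'⟩ := Submodule.mem_span_singleton.1 k1
  obtain ⟨s, rfl⟩ := g3_surj c s'
  change g3rho c s * g3rho c v.1 = g3rho c (u - t • w).1 at hs'
  have hd1 : (X 0 - C c : P2) ∣ (u - t • w - s • v).1 := by
    rw [g3_dvd_iff, Prod.fst_sub, map_sub, ← hs', Prod.smul_fst, smul_eq_mul, map_mul, sub_self]
  have hd2 : (X 0 - C c : P2) ∣ (u - t • w - s • v).2 := by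
    rw [g3_dvd_iff, Prod.snd_sub, map_sub, hu2, Prod.smul_snd, smul_eq_mul, map_mul, hv2, mul_zero,
      sub_zero]
  obtain ⟨x1, e1⟩ := hd1
  obtain ⟨x2, e2⟩ := hd2
  have e3 : u - t • w - s • v = (X 0 - C c : P2) • (x1, x2) := by
    ext1
    · rw [e1]; rfl
    · rw [e2]; rfl
  refine ⟨s, t, (x1, x2), ?_, ?_⟩
  · apply g3_cancel hx
    rw [← e3]
    exact sub_mem hu1 (Submodule.smul_mem _ _ hv)
  · rw [← e3]; abel

theorem two_gen {f a b : P2} {z : Fin 2 → ℂ} (haf : IsRelPrime a f)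
    (hx : ¬ (X 0 - C (z 0)) ∣ f) :
    ∃ p₁ q₁ p₂ q₂ κ : P2, f ∣ p₁ * a - q₁ * b ∧ f ∣ p₂ * a - q₂ * b ∧
      p₁ * q₂ - p₂ * q₁ = f * κ ∧ eval z κ ≠ 0 := by
  obtain ⟨v, w, hv, hw, hgen⟩ := g3_gens (a := a) (b := b) hx
  have hf0 : f ≠ 0 := by
    rintro rfl
    exact hx (dvd_zero _)
  -- the determinant is divisible by `f`
  have hdet : f ∣ v.1 * w.2 - w.1 * v.2 := by
    have h1 : f ∣ a * (v.1 * w.2 - w.1 * v.2) := by
      have e : a * (v.1 * w.2 - w.1 * v.2)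
          = (v.1 * a - v.2 * b) * w.2 - (w.1 * a - w.2 * b) * v.2 := by ring
      rw [e]
      exact dvd_sub (hv.mul_right _) (hw.mul_right _)
    exact haf.symm.dvd_of_dvd_mul_left h1
  obtain ⟨κ, hκ⟩ := hdet
  refine ⟨v.1, v.2, w.1, w.2, κ, hv, hw, hκ, fun hz => ?_⟩
  -- Nakayama
  have hle : g3I f a b ≤ Submodule.span P2 {v, w} ⊔
      Ideal.span {(X 0 - C (z 0) : P2)} • g3I f a b := by
    intro u hu
    obtain ⟨s, t, u', hu', rfl⟩ := hgen u hu
    refine Submodule.add_mem_sup ?_ ?_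
    · exact Submodule.mem_span_pair.2 ⟨s, t, rfl⟩
    · exact Submodule.smul_mem_smul (Ideal.mem_span_singleton_self _) hu'
  obtain ⟨r, hr1, hr2⟩ := Submodule.exists_sub_one_mem_and_smul_le_of_fg_of_le_sup
    (IsNoetherian.noetherian (g3I f a b)) le_rfl hle
  have hrz : eval z r = 1 := by
    obtain ⟨y, hy⟩ := Ideal.mem_span_singleton.1 hr1
    have := congrArg (eval z) hy
    simp at this
    linear_combination this
  have hr0 : r ≠ 0 := by
    rintro rfl
    simp at hrz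
  have hspan : ∀ u ∈ g3I f a b, ∃ s t : P2, s • v + t • w = r • u := fun u hu =>
    Submodule.mem_span_pair.1 (hr2 (Submodule.smul_mem_pointwise_smul u r _ hu))
  -- determinants
  have hdvd : ∀ u u' : P2 × P2, u ∈ g3I f a b → u' ∈ g3I f a b →
      f * κ ∣ r ^ 2 * (u.1 * u'.2 - u'.1 * u.2) := by
    intro u u' hu hu'
    obtain ⟨s, t, e⟩ := hspan u hu
    obtain ⟨s', t', e'⟩ := hspan u' hu'
    have e1 := congrArg Prod.fst e
    have e2 := congrArg Prod.snd e
    have e1' := congrArg Prod.fst e'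
    have e2' := congrArg Prod.snd e'
    simp only [Prod.fst_add, Prod.snd_add, Prod.smul_fst, Prod.smul_snd, smul_eq_mul]
      at e1 e2 e1' e2'
    refine ⟨s * t' - s' * t, ?_⟩
    rw [← hκ]
    calc r ^ 2 * (u.1 * u'.2 - u'.1 * u.2)
        = (r * u.1) * (r * u'.2) - (r * u'.1) * (r * u.2) := by ring
      _ = (v.1 * w.2 - w.1 * v.2) * (s * t' - s' * t) := by
          rw [← e1, ← e2, ← e1', ← e2']; ring
  have hA : κ ∣ r ^ 2 * f := by
    have h := hdvd (f, 0) (0, f) (by rw [g3_mem]; simp) (by rw [g3_mem]; simp)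
    have e : r ^ 2 * (((f, 0) : P2 × P2).1 * ((0, f) : P2 × P2).2
        - ((0, f) : P2 × P2).1 * ((f, 0) : P2 × P2).2) = f * (r ^ 2 * f) := by
      simp only; ring
    rw [e] at h
    exact (mul_dvd_mul_iff_left hf0).1 h
  have hB : κ ∣ r ^ 2 * a := by
    have h := hdvd (f, 0) (b, a) (by rw [g3_mem]; simp)
      (by rw [g3_mem]; simp only; rw [mul_comm b a, sub_self]; exact dvd_zero _)
    have e : r ^ 2 * (((f, 0) : P2 × P2).1 * ((b, a) : P2 × P2).2
        - ((b, a) : P2 × P2).1 * ((f, 0) : P2 × P2).2) = f * (r ^ 2 * a) := by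
      simp only; ring
    rw [e] at h
    exact (mul_dvd_mul_iff_left hf0).1 h
  have hκ0 : κ ≠ 0 := by
    rintro rfl
    rw [zero_dvd_iff] at hA
    exact mul_ne_zero (pow_ne_zero 2 hr0) hf0 hA
  obtain ⟨F, hF, hFκ⟩ := UniqueFactorizationMonoid.exists_prime_factors κ hκ0
  have h3 : eval z F.prod = 0 := by
    obtain ⟨y, hy⟩ := hFκ.symm.dvd
    rw [hy, map_mul, hz, zero_mul]
  rw [map_multiset_prod, Multiset.prod_eq_zero_iff, Multiset.mem_map] at h3
  obtain ⟨ρ, hρ, hρz⟩ := h3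
  have hρp := hF ρ hρ
  have hρκ : ρ ∣ κ := (Multiset.dvd_prod hρ).trans hFκ.dvd
  have hρr : ¬ ρ ∣ r ^ 2 := by
    intro h
    obtain ⟨y, hy⟩ := hρp.dvd_of_dvd_pow h
    have := congrArg (eval z) hy
    rw [hrz, map_mul, hρz, zero_mul] at this
    exact one_ne_zero this
  have h4 : ρ ∣ f := (hρp.dvd_or_dvd (hρκ.trans hA)).resolve_left hρr
  have h5 : ρ ∣ a := (hρp.dvd_or_dvd (hρκ.trans hB)).resolve_left hρr
  exact hρp.not_isUnit (haf h5 h4)

end Pool.Agent.Helper89.GC
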