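import Pool.Agent.Helper89.GC.St.G3

set_option autoImplicit false

/-!
Piece G4.  An element of `I = {(p, q) : f ∣ p a - q b}` whose norm is `f` times a unit near `z`.

Proof.  Take `p₁, q₁, p₂, q₂, κ` from `two_gen`.  `a ^ 2 (p_i p_j - δ q_i q_j) ≡
q_i q_j (b ^ 2 - δ a ^ 2) ≡ 0 (mod f)` and `a` is coprime to `f`, so
`p₁ ^ 2 - δ q₁ ^ 2 = f a₁`, `p₂ ^ 2 - δ q₂ ^ 2 = f c₁`, `p₁ p₂ - δ q₁ q₂ = f b₁`, and
`b₁ ^ 2 - a₁ c₁ = δ κ ^ 2` (cancel `f ^ 2`).  If `a₁(z) = c₁(z) = 0` then `b₁(z) = 0` and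
differentiating at `z` gives `∂ᵢδ(z) κ(z) ^ 2 = 0` for all `i`, a contradiction.
-/

namespace Pool.Agent.Helper89.GC

open MvPolynomial Pool.Agent.Helper29.HP

private lemma dvd_form {δ f a b p q p' q' : P2} (haf : IsRelPrime a f)
    (hn : f ∣ b ^ 2 - δ * a ^ 2) (h : f ∣ p * a - q * b) (h' : f ∣ p' * a - q' * b) :
    f ∣ p * p' - δ * (q * q') := by
  have h1 : f ∣ a ^ 2 * (p * p' - δ * (q * q')) := by
    have e : a ^ 2 * (p * p' - δ * (q * q')) =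
        (p * a - q * b) * (p' * a) + (p' * a - q' * b) * (q * b)
          + (b ^ 2 - δ * a ^ 2) * (q * q') := by ring
    rw [e]
    exact dvd_add (dvd_add (h.mul_right _) (h'.mul_right _)) (hn.mul_right _)
  have h2 : IsRelPrime f (a ^ 2) := (IsRelPrime.pow_left haf).symm
  exact h2.dvd_of_dvd_mul_left h1

theorem exists_unit_norm {δ f a b : P2} {z : Fin 2 → ℂ} (haf : IsRelPrime a f)
    (hx : ¬ (X 0 - C (z 0)) ∣ f) (hn : f ∣ b ^ 2 - δ * a ^ 2) (hz : eval z δ = 0)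
    (hdz : ∃ i, eval z (pderiv i δ) ≠ 0) :
    ∃ p q ν : P2, f ∣ p * a - q * b ∧ p ^ 2 - δ * q ^ 2 = f * ν ∧ eval z ν ≠ 0 := by
  obtain ⟨p₁, q₁, p₂, q₂, κ, h1, h2, hdet, hκ⟩ := two_gen (b := b) haf hx
  have hf : f ≠ 0 := by
    rintro rfl
    exact hx (dvd_zero _)
  obtain ⟨a₁, ha₁⟩ := dvd_form haf hn h1 h1
  obtain ⟨c₁, hc₁⟩ := dvd_form haf hn h2 h2
  obtain ⟨b₁, hb₁⟩ := dvd_form haf hn h1 h2
  have key : b₁ ^ 2 - a₁ * c₁ = δ * κ ^ 2 := by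
    have e : f ^ 2 * (b₁ ^ 2 - a₁ * c₁) = f ^ 2 * (δ * κ ^ 2) := by
      calc f ^ 2 * (b₁ ^ 2 - a₁ * c₁) = (f * b₁) ^ 2 - (f * a₁) * (f * c₁) := by ring
        _ = δ * (p₁ * q₂ - p₂ * q₁) ^ 2 := by rw [← ha₁, ← hc₁, ← hb₁]; ring
        _ = f ^ 2 * (δ * κ ^ 2) := by rw [hdet]; ring
    exact mul_left_cancel₀ (pow_ne_zero 2 hf) e
  by_cases hA : eval z a₁ = 0
  · by_cases hC : eval z c₁ = 0
    · exfalso
      have hB : eval z b₁ = 0 := by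
        have := congrArg (eval z) key
        simp only [map_sub, map_mul, map_pow, hA, hC, hz] at this
        have h0 : (eval z b₁) ^ 2 = 0 := by simpa using this
        exact pow_eq_zero_iff (two_ne_zero) |>.1 h0
      obtain ⟨i, hi⟩ := hdz
      have hd := congrArg (fun r => eval z (pderiv i r)) key
      simp only [map_sub, Derivation.leibniz, Derivation.leibniz_pow, smul_eq_mul, map_add,
        map_mul, map_pow, hA, hB, hC, hz, nsmul_eq_mul] at hd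
      have h0 : eval z κ ^ 2 * eval z (pderiv i δ) = 0 := by
        simpa using hd.symm
      exact mul_ne_zero (pow_ne_zero 2 hκ) hi h0
    · exact ⟨p₂, q₂, c₁, h2, by rw [← hc₁]; ring, hC⟩
  · exact ⟨p₁, q₁, a₁, h1, by rw [← ha₁]; ring, hA⟩

end Pool.Agent.Helper89.GC
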