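import Mathlib
import Pool.Agent.Helper89.GC.St.G4
import Pool.Agent.Helper89.OS.St.X15
import Pool.Agent.Helper89.GC.Defs

namespace Pool.Agent.Helper29.HP.Six
end Pool.Agent.Helper29.HP.Six

set_option autoImplicit false

/-!
Piece G5.  The homogeneous form of G4.

Proof.  (a) Assume first `z = ![1, z₁, z₂]`, `¬ X 0 ∣ μ` and `¬ (X 0 - C z₁) ∣ dh2 μ`
(`dh2 : P3 → P2` dehomogenises, `x₀ = 1`; e.g. `μ(0,0,1) ≠ 0` suffices for both: then `dh2 μ` has
the monomial `X 1 ^ n`).  Apply G4 to `dh2 δ`, `f = dh2 μ`, `a = dh2 h`, `b = dh2 g` at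
`![z₁, z₂]` (`smooth_dh2`, `pderiv_dh2` in `Helper29/HP/St/Irr.lean` give the derivative
hypothesis; `IsRelPrime (dh2 h) (dh2 μ)`: a common irreducible factor, homogenised, would divide
`h` and `μ`, see `dvd_of_dh2_dvd`; or use that the ideal `(h, μ)` contains a power of ...).
Homogenise `p`, `q` with `hmg (N + 3) p`, `hmg N q` (`Helper29/HP/St/Six.lean`: `hmg_hom`,
`dh2_hmg`, `dh2_inj`) for all `N ≥` their degrees; the divisibilities lift because `¬ X 0 ∣ μ`
(`dvd_of_dh2_dvd` or `mem_of_dh2_mem`); the quotient `A` is a form (`Helper16.hom_factor`) and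
`A(1, z₁, z₂) = ν(z) ≠ 0`.
(b) In general make a linear change of coordinates (`x15E φ` in `OS/St/X15.lean`, `x15_aut`,
`exists_lequiv`) with `φ ![1, 0, 0] = z` and `μ (φ ![0, 0, 1]) ≠ 0`.
-/

namespace Pool.Agent.Helper89.GC

open MvPolynomial Pool.Agent.Helper29.HP Pool.Agent.Helper89.OS
open Pool.Agent.Helper29.HP.Six (lsub lsub_lsub eval_lsub lsub_hom exists_lequiv)

section aff

/-- a divisor of the dehomogenisation, homogenised, is a divisor -/
private theorem g5_hmg_dvd {p : P3} {m : ℕ} (hp : p.IsHomogeneous m) {d : P2} (h : d ∣ dh2 p) :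
    hmg2 d.totalDegree d ∣ p := by
  obtain ⟨c, hc⟩ := h
  by_cases h0 : dh2 p = 0
  · rw [dh2_inj hp h0]
    exact dvd_zero _
  have hd0 : d ≠ 0 := by
    rintro rfl
    rw [zero_mul] at hc
    exact h0 hc
  have hc0 : c ≠ 0 := by
    rintro rfl
    rw [mul_zero] at hc
    exact h0 hc
  have hd := totalDegree_mul_of_isDomain hd0 hc0
  rw [← hc] at hd
  have h4 := totalDegree_dh2_le hp
  refine ⟨hmg2 (m - d.totalDegree) c, ?_⟩
  have h2 : (p - hmg2 d.totalDegree d * hmg2 (m - d.totalDegree) c).IsHomogeneous m := by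
    apply hp.sub
    have h6 := (hmg2_hom d.totalDegree d).mul (hmg2_hom (m - d.totalDegree) c)
    have h5 : d.totalDegree + (m - d.totalDegree) = m := by omega
    rwa [h5] at h6
  have h3 : dh2 (p - hmg2 d.totalDegree d * hmg2 (m - d.totalDegree) c) = 0 := by
    rw [map_sub, map_mul, dh2_hmg2 le_rfl, dh2_hmg2 (by omega), hc, sub_self]
  exact sub_eq_zero.mp (dh2_inj h2 h3)

/-- divisibility of forms can be tested after dehomogenisation -/
private theorem g5_dvd_of_dh2_dvd {p q : P3} {n m : ℕ} (hp : p.IsHomogeneous n)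
    (hq : q.IsHomogeneous m) (h0 : ¬ X 0 ∣ p) (h : dh2 p ∣ dh2 q) : p ∣ q := by
  have h1 := g5_hmg_dvd hq h
  rw [totalDegree_dh2 hp h0] at h1
  have h2 : hmg2 n (dh2 p) = p := by
    have h3 : dh2 (hmg2 n (dh2 p) - p) = 0 := by
      rw [map_sub, dh2_hmg2 (totalDegree_dh2_le hp), sub_self]
    exact sub_eq_zero.mp (dh2_inj ((hmg2_hom n _).sub hp) h3)
  rwa [h2] at h1

/-- the affine case -/
private theorem g5_aff {δ μ g h : P3} {n e : ℕ} (hδ : δ.IsHomogeneous 6) (hsm : Sm δ)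
    (hμ : μ.IsHomogeneous n) (hg : g.IsHomogeneous (e + 3))
    (hh : h.IsHomogeneous e) (hr : IsRelPrime h μ) (hgh : μ ∣ g ^ 2 - δ * h ^ 2)
    (hμ1 : eval (![0, 0, 1] : Fin 3 → ℂ) μ ≠ 0) (z : Fin 2 → ℂ)
    (hzδ : eval (Fin.cons 1 z : Fin 3 → ℂ) δ = 0) :
    ∃ N₀ : ℕ, ∀ N, N₀ ≤ N → ∃ p q A : P3, NE δ μ p q A N (2 * N + 6 - n) ∧
      μ ∣ p * h - q * g ∧ eval (Fin.cons 1 z : Fin 3 → ℂ) A ≠ 0 := by
  have hX : ¬ (X 0 : P3) ∣ μ := by
    rintro ⟨c, hc⟩
    apply hμ1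
    rw [hc, map_mul, eval_X]
    simp
  have hdeg := totalDegree_dh2 hμ hX
  have hμ0 : μ ≠ 0 := by
    rintro rfl
    simp at hμ1
  have hrel : IsRelPrime (dh2 h) (dh2 μ) := by
    intro d h1 h2
    have h3 := hr (g5_hmg_dvd hh h1) (g5_hmg_dvd hμ h2)
    have h4 := h3.map dh2
    rwa [dh2_hmg2 le_rfl] at h4
  have hx : ¬ (X 0 - C (z 0) : P2) ∣ dh2 μ := by
    intro hd
    have h1 := g5_hmg_dvd hμ hd
    have hdg : (X 0 - C (z 0) : P2).totalDegree ≤ 1 := by
      refine (totalDegree_sub_C_le _ _).trans ?_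
      rw [totalDegree_X]
    have hlt : (X 0 - C (z 0) : P2).totalDegree = 1 := by
      refine le_antisymm hdg ?_
      by_contra hlt
      have h5 : (X 0 - C (z 0) : P2).totalDegree = 0 := by omega
      rw [totalDegree_eq_zero_iff_eq_C] at h5
      have h6 := congr_arg (coeff (Finsupp.single 0 1)) h5
      rw [coeff_sub, coeff_X, coeff_C, coeff_C] at h6
      have h7 : (0 : Fin 2 →₀ ℕ) ≠ Finsupp.single 0 1 := by
        intro h8
        have := DFunLike.congr_fun h8 0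
        simp at this
      rw [if_neg h7, if_neg h7] at h6
      norm_num at h6
    rw [hlt] at h1
    have h2 : hmg2 1 (X 0 - C (z 0) : P2) = X 1 - C (z 0) * X 0 := by
      have h3 : dh2 (hmg2 1 (X 0 - C (z 0) : P2) - (X 1 - C (z 0) * X 0)) = 0 := by
        rw [map_sub, dh2_hmg2 hdg, map_sub, map_mul]
        have e1 : dh2 (X 1) = X 0 := by
          have := aeval_X (R := ℂ) (Fin.cons 1 X : Fin 3 → P2) 1
          rw [dh2, this]
          rfl
        have e0 : dh2 (X 0) = 1 := by simp [dh2]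
        have e2 : dh2 (C (z 0)) = C (z 0) := dh2.commutes _
        rw [e1, e0, e2]
        ring
      have h4 : (X 1 - C (z 0) * X 0 : P3).IsHomogeneous 1 := by
        apply (isHomogeneous_X ℂ (1 : Fin 3)).sub
        have := (isHomogeneous_C (Fin 3) (z 0)).mul (isHomogeneous_X ℂ (0 : Fin 3))
        rwa [zero_add] at this
      exact sub_eq_zero.mp (dh2_inj ((hmg2_hom 1 _).sub h4) h3)
    rw [h2] at h1
    obtain ⟨c, hc⟩ := h1
    apply hμ1
    rw [hc, map_mul, map_sub, map_mul, eval_X, eval_X, eval_C]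
    simp
  have hn : dh2 μ ∣ dh2 g ^ 2 - dh2 δ * dh2 h ^ 2 := by
    have := map_dvd dh2 hgh
    rwa [map_sub, map_mul, map_pow, map_pow] at this
  have hzd : eval z (dh2 δ) = 0 := by rw [eval_dh2]; exact hzδ
  obtain ⟨p, q, ν, h1, h2, h3⟩ := exists_unit_norm hrel hx hn hzd (smooth_dh2 hδ hsm z hzd)
  refine ⟨p.totalDegree + q.totalDegree + ν.totalDegree + n, fun N hN => ?_⟩
  refine ⟨hmg2 (N + 3) p, hmg2 N q, hmg2 (2 * N + 6 - n) ν, ⟨hmg2_hom _ _, hmg2_hom _ _,
    hmg2_hom _ _, ?_⟩, ?_, ?_⟩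
  · have h4 : (hmg2 (N + 3) p ^ 2 - δ * hmg2 N q ^ 2 -
        μ * hmg2 (2 * N + 6 - n) ν).IsHomogeneous (2 * N + 6) := by
      apply IsHomogeneous.sub
      · apply IsHomogeneous.sub
        · have := (hmg2_hom (N + 3) p).pow 2
          have h5 : (N + 3) * 2 = 2 * N + 6 := by ring
          rwa [h5] at this
        · have := hδ.mul ((hmg2_hom N q).pow 2)
          have h5 : 6 + N * 2 = 2 * N + 6 := by ring
          rwa [h5] at this
      · have := hμ.mul (hmg2_hom (2 * N + 6 - n) ν)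
        have h5 : n + (2 * N + 6 - n) = 2 * N + 6 := by omega
        rwa [h5] at this
    have h5 : dh2 (hmg2 (N + 3) p ^ 2 - δ * hmg2 N q ^ 2 - μ * hmg2 (2 * N + 6 - n) ν) = 0 := by
      rw [map_sub, map_sub, map_mul, map_mul, map_pow, map_pow, dh2_hmg2 (by omega),
        dh2_hmg2 (by omega), dh2_hmg2 (by omega), h2, sub_self]
    exact sub_eq_zero.mp (dh2_inj h4 h5)
  · have h4 : (hmg2 (N + 3) p * h - hmg2 N q * g).IsHomogeneous (N + 3 + e) := by
      apply IsHomogeneous.sub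
      · exact (hmg2_hom (N + 3) p).mul hh
      · have := (hmg2_hom N q).mul hg
        have h5 : N + (e + 3) = N + 3 + e := by ring
        rwa [h5] at this
    refine g5_dvd_of_dh2_dvd hμ h4 hX ?_
    rw [map_sub, map_mul, map_mul, dh2_hmg2 (by omega), dh2_hmg2 (by omega)]
    exact h1
  · rw [← eval_dh2, dh2_hmg2 (by omega)]
    exact h3

/-- coordinates with a given point and a point outside a curve -/
private theorem g5_coord {μ : P3} (hμ0 : μ ≠ 0) {z : Fin 3 → ℂ} (hz : z ≠ 0) :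
    ∃ B : (Fin 3 → ℂ) ≃ₗ[ℂ] (Fin 3 → ℂ), eval (B ![0, 0, 1]) μ ≠ 0 ∧ B.symm z 0 = 1 := by
  obtain ⟨i, hi⟩ : ∃ i, z i ≠ 0 := by
    by_contra hcon
    push Not at hcon
    exact hz (funext hcon)
  obtain ⟨j, hj⟩ : ∃ j : Fin 3, j ≠ i := exists_ne i
  have hl0 : (C (z j) * X i - C (z i) * X j : P3) ≠ 0 := by
    intro h0
    have h1 := congr_arg (eval (Pi.single j 1 : Fin 3 → ℂ)) h0
    rw [map_sub, map_mul, map_mul, eval_C, eval_C, eval_X, eval_X, Pi.single_eq_same,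
      Pi.single_eq_of_ne hj.symm, map_zero] at h1
    apply hi
    linear_combination -h1
  obtain ⟨P, hP⟩ : ∃ P : Fin 3 → ℂ, eval P (μ * (C (z j) * X i - C (z i) * X j)) ≠ 0 := by
    by_contra hcon
    push Not at hcon
    apply mul_ne_zero hμ0 hl0
    apply MvPolynomial.funext
    intro x
    rw [hcon x, map_zero]
  rw [map_mul] at hP
  have hP1 := left_ne_zero_of_mul hP
  have hP2 := right_ne_zero_of_mul hP
  rw [map_sub, map_mul, map_mul, eval_C, eval_C, eval_X, eval_X] at hP2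
  let l0 : (Fin 3 → ℂ) →ₗ[ℂ] ℂ := z j • LinearMap.proj i - z i • LinearMap.proj j
  have hl0a : ∀ w, l0 w = z j * w i - z i * w j := fun w => rfl
  let m : (Fin 3 → ℂ) →ₗ[ℂ] ℂ := (z i)⁻¹ • LinearMap.proj i
  have hm : ∀ w, m w = (z i)⁻¹ * w i := fun w => rfl
  let l : (Fin 3 → ℂ) →ₗ[ℂ] ℂ := m - (m P / l0 P) • l0
  have hl : ∀ w, l w = m w - (m P / l0 P) * l0 w := fun w => rfl
  have hlz : l z = 1 := by
    rw [hl, hl0a z, hm z, inv_mul_cancel₀ hi]
    ring
  have hlP : l P = 0 := by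
    rw [hl, div_mul_cancel₀ _ (by rw [hl0a]; exact hP2), sub_self]
  have hl1 : l ≠ 0 := by
    intro h0
    rw [h0] at hlz
    simp at hlz
  obtain ⟨φ, hφ⟩ := exists_lequiv hl1
  have hPne : P ≠ 0 := by
    rintro rfl
    apply hP2
    simp
  obtain ⟨A, hA1, hA2⟩ := Pool.Agent.Helper89.OS.x15_aut (P := φ P) (by
    intro h
    apply hPne
    exact φ.injective (by rw [h, map_zero])) (by rw [hφ, hlP])
  refine ⟨A.trans φ.symm, ?_, ?_⟩
  · rw [LinearEquiv.trans_apply, hA1, φ.symm_apply_apply]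
    exact hP1
  · have h1 : (A.trans φ.symm).symm z = A.symm (φ z) := rfl
    rw [h1]
    have h2 := hA2 (A.symm (φ z))
    rw [A.apply_symm_apply] at h2
    rw [← h2, hφ, hlz]

end aff

theorem exists_pt {δ μ g h : P3} {n e : ℕ} (hδ : δ.IsHomogeneous 6) (hsm : Sm δ)
    (hμ : μ.IsHomogeneous n) (hμ0 : μ ≠ 0) (hg : g.IsHomogeneous (e + 3))
    (hh : h.IsHomogeneous e) (hr : IsRelPrime h μ) (hgh : μ ∣ g ^ 2 - δ * h ^ 2)
    {z : Fin 3 → ℂ} (hz : z ≠ 0) (hzδ : eval z δ = 0) :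
    ∃ N₀ : ℕ, ∀ N, N₀ ≤ N → ∃ p q A : P3, NE δ μ p q A N (2 * N + 6 - n) ∧
      μ ∣ p * h - q * g ∧ eval z A ≠ 0 := by
  obtain ⟨B, hB1, hB2⟩ := g5_coord hμ0 hz
  have hB0 : ∀ z, B z = 0 → z = 0 := fun z hz => B.injective (by rw [hz, map_zero])
  have hev : ∀ p z, eval z (x15E B p) = eval (B z) p := fun p z => eval_lsub _ _ _
  have hw : B.symm z = (Fin.cons 1 (fun j => B.symm z (Fin.succ j)) : Fin 3 → ℂ) := by
    funext i
    refine Fin.cases ?_ (fun j => ?_) i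
    · rw [Fin.cons_zero]
      exact hB2
    · rw [Fin.cons_succ]
  have hrel : IsRelPrime (x15E B h) (x15E B μ) := by
    intro d h1 h2
    have h3 := map_dvd (x15E B).symm h1
    have h4 := map_dvd (x15E B).symm h2
    rw [AlgEquiv.symm_apply_apply] at h3 h4
    have h5 := (hr h3 h4).map (x15E B)
    rwa [AlgEquiv.apply_symm_apply] at h5
  obtain ⟨N₀, hN⟩ := g5_aff (δ := x15E B δ) (μ := x15E B μ) (g := x15E B g) (h := x15E B h)
    (x15E_hom.mpr hδ) (Pool.Agent.Helper5.HP.smooth_lsub hsm (a := B.toLinearMap)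
      (b := B.symm.toLinearMap) (fun z => B.apply_symm_apply z) hB0)
    (x15E_hom.mpr hμ) (x15E_hom.mpr hg) (x15E_hom.mpr hh) hrel
    (by
      have h1 := map_dvd (x15E B) hgh
      rwa [map_sub, map_mul, map_pow, map_pow] at h1)
    (by rw [hev]; exact hB1) (fun j => B.symm z (Fin.succ j))
    (by rw [← hw, hev, B.apply_symm_apply]; exact hzδ)
  refine ⟨N₀, fun N h0 => ?_⟩
  obtain ⟨p, q, A, hne, hd, hA⟩ := hN N h0
  refine ⟨(x15E B).symm p, (x15E B).symm q, (x15E B).symm A, ⟨?_, ?_, ?_, ?_⟩, ?_, ?_⟩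
  · rw [← x15E_hom (φ := B), AlgEquiv.apply_symm_apply]
    exact hne.hp
  · rw [← x15E_hom (φ := B), AlgEquiv.apply_symm_apply]
    exact hne.hq
  · rw [← x15E_hom (φ := B), AlgEquiv.apply_symm_apply]
    exact hne.hA
  · apply (x15E B).injective
    rw [map_sub, map_mul, map_mul, map_pow, map_pow, AlgEquiv.apply_symm_apply,
      AlgEquiv.apply_symm_apply, AlgEquiv.apply_symm_apply]
    exact hne.eq
  · have h1 := map_dvd (x15E B).symm hd
    rw [map_sub, map_mul, map_mul, AlgEquiv.symm_apply_apply, AlgEquiv.symm_apply_apply,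
      AlgEquiv.symm_apply_apply] at h1
    exact h1
  · have h1 := hev ((x15E B).symm A) (B.symm z)
    rw [AlgEquiv.apply_symm_apply, B.apply_symm_apply, hw] at h1
    rw [← h1]
    exact hA

end Pool.Agent.Helper89.GC
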