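import Pool.Agent.Helper89.GC.St.G1
import Pool.Agent.Helper89.GC.St.G2
import Pool.Agent.Helper89.GC.St.G5

set_option autoImplicit false

/-!
Piece G6.  One solution of the norm equation which is good at all common zeros of `μ` and `δ`.

Proof.  `(g, h)` from G2.  `S` = representatives of the common zeros of `μ` and `δ` (G1; `δ` is
irreducible, so `IsRelPrime`).  For `w ∈ S` take `(p_w, q_w, A_w)` from G5 (`N` at least the maximum
of the `N₀`).  For `t : S → ℂ` put `p = ∑ t_w p_w`, `q = ∑ t_w q_w`; `μ` divides all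
`p_v p_w - δ q_v q_w` (multiply by `h ^ 2`), so `p ^ 2 - δ q ^ 2 = μ A` with
`A = ∑ t_v t_w A_vw`, a form; `A(w)` is a quadratic polynomial in `t` with coefficient
`A_w(w) ≠ 0` at `t_w ^ 2`; choose `t` outside the zero set of the product of these polynomials
over `w ∈ S` (`MvPolynomial.funext` or `exists_eval_ne_zero`, compare `exists_vec` in
`OS/St/X6c.lean`).
-/

namespace Pool.Agent.Helper89.GC

open MvPolynomial Pool.Agent.Helper29.HP

private theorem g6_dvd {δ μ g h p q p' q' : P3} (hr : IsRelPrime h μ)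
    (hgh : μ ∣ g ^ 2 - δ * h ^ 2) (h1 : μ ∣ p * h - q * g) (h2 : μ ∣ p' * h - q' * g) :
    μ ∣ p * p' - δ * (q * q') := by
  have hr2 : IsRelPrime μ (h ^ 2) := hr.symm.pow_right
  refine hr2.dvd_of_dvd_mul_left ?_
  have e : h ^ 2 * (p * p' - δ * (q * q')) = (p * h - q * g) * (p' * h) +
      (p' * h - q' * g) * (q * g) + q * q' * (g ^ 2 - δ * h ^ 2) := by ring
  rw [e]
  exact dvd_add (dvd_add (h1.mul_right _) (h2.mul_right _)) (hgh.mul_left _)

private theorem g6_hom {μ B : P3} {n d : ℕ} (hμ : μ.IsHomogeneous n) (hμ0 : μ ≠ 0)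
    (h : (μ * B).IsHomogeneous d) : B.IsHomogeneous (d - n) := by
  by_cases hB : B = 0
  · rw [hB]; exact isHomogeneous_zero _ _ _
  · obtain ⟨a, b, ha, hb, hab⟩ := Pool.Agent.Helper16.hom_factor h (mul_ne_zero hμ0 hB)
    have e : a = n := ha.inj_right hμ hμ0
    have e2 : b = d - n := by omega
    rw [← e2]; exact hb

private theorem g6_comb {δ μ g h : P3} {n N : ℕ} (hδ : δ.IsHomogeneous 6)
    (hμ : μ.IsHomogeneous n) (hμ0 : μ ≠ 0) (hr : IsRelPrime h μ)
    (hgh : μ ∣ g ^ 2 - δ * h ^ 2) (S : Finset (Fin 3 → ℂ))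
    (H : ∀ w : S, ∃ p q A : P3, NE δ μ p q A N (2 * N + 6 - n) ∧
      μ ∣ p * h - q * g ∧ eval w.1 A ≠ 0) :
    ∃ p q A : P3, NE δ μ p q A N (2 * N + 6 - n) ∧ ∀ w : S, eval w.1 A ≠ 0 := by
  classical
  choose p q A hNE hdv hev using H
  have hB : ∀ v u : S, ∃ B : P3, p v * p u - δ * (q v * q u) = μ * B := fun v u =>
    g6_dvd hr hgh (hdv v) (hdv u)
  choose B hB using hB
  have hBh : ∀ v u, (B v u).IsHomogeneous (2 * N + 6 - n) := by
    intro v u
    refine g6_hom hμ hμ0 ?_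
    rw [← hB v u]
    have e1 : (p v * p u).IsHomogeneous (2 * N + 6) := by
      have := (hNE v).hp.mul (hNE u).hp
      have e : N + 3 + (N + 3) = 2 * N + 6 := by ring
      rwa [e] at this
    have e2 : (δ * (q v * q u)).IsHomogeneous (2 * N + 6) := by
      have := hδ.mul ((hNE v).hq.mul (hNE u).hq)
      have e : 6 + (N + N) = 2 * N + 6 := by ring
      rwa [e] at this
    exact e1.sub e2
  have hBA : ∀ v, B v v = A v := by
    intro v
    apply mul_left_cancel₀ hμ0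
    rw [← hB v v, ← (hNE v).eq]; ring
  let Q : S → MvPolynomial S ℂ := fun w => ∑ v, ∑ u, C (eval w.1 (B v u)) * (X v * X u)
  have hQ : ∀ w t, eval t (Q w) = ∑ v, ∑ u, eval w.1 (B v u) * (t v * t u) := by
    intro w t
    simp only [Q, map_sum, map_mul, eval_C, eval_X]
  have hQ0 : ∀ w, Q w ≠ 0 := by
    intro w h0
    have h1 := hQ w (Pi.single w 1)
    rw [h0, map_zero] at h1
    rw [Finset.sum_eq_single w, Finset.sum_eq_single w] at h1
    · rw [Pi.single_eq_same, mul_one, mul_one, hBA] at h1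
      exact hev w h1.symm
    · intro u _ hu
      rw [Pi.single_eq_of_ne hu, mul_zero, mul_zero]
    · intro hw; exact absurd (Finset.mem_univ _) hw
    · intro v _ hv
      refine Finset.sum_eq_zero fun u _ => ?_
      rw [Pi.single_eq_of_ne hv, zero_mul, mul_zero]
    · intro hw; exact absurd (Finset.mem_univ _) hw
  have hprod : ∏ w, Q w ≠ 0 := Finset.prod_ne_zero_iff.mpr fun w _ => hQ0 w
  obtain ⟨t, ht⟩ : ∃ t, eval t (∏ w, Q w) ≠ 0 := by
    by_contra hcon
    push Not at hcon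
    apply hprod
    apply MvPolynomial.funext
    intro t
    rw [hcon t, map_zero]
  rw [map_prod] at ht
  refine ⟨∑ v, C (t v) * p v, ∑ v, C (t v) * q v, ∑ v, ∑ u, C (t v * t u) * B v u, ⟨?_, ?_, ?_, ?_⟩,
    ?_⟩
  · exact IsHomogeneous.sum _ _ _ fun v _ => (hNE v).hp.C_mul _
  · exact IsHomogeneous.sum _ _ _ fun v _ => (hNE v).hq.C_mul _
  · exact IsHomogeneous.sum _ _ _ fun v _ => IsHomogeneous.sum _ _ _ fun u _ => (hBh v u).C_mul _
  · rw [pow_two, pow_two, Finset.sum_mul_sum, Finset.sum_mul_sum, Finset.mul_sum, Finset.mul_sum,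
      ← Finset.sum_sub_distrib]
    refine Finset.sum_congr rfl fun v _ => ?_
    rw [Finset.mul_sum, Finset.mul_sum, ← Finset.sum_sub_distrib]
    refine Finset.sum_congr rfl fun u _ => ?_
    rw [C_mul]
    linear_combination (C (t v) * C (t u)) * hB v u
  · intro w
    have h1 := Finset.prod_ne_zero_iff.mp ht w (Finset.mem_univ _)
    rw [hQ] at h1
    intro h2
    apply h1
    rw [← h2]
    simp only [map_sum, map_mul, eval_C]
    refine Finset.sum_congr rfl fun v _ => Finset.sum_congr rfl fun u _ => by ring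

theorem exists_all {δ μ : P3} {n : ℕ} (hδ : δ.IsHomogeneous 6) (hsm : Sm δ)
    (hμ : μ.IsHomogeneous n) (hμδ : ¬ δ ∣ μ) (hsp : Spl δ μ) :
    ∃ N₀ : ℕ, ∀ N, N₀ ≤ N → ∃ p q A : P3, NE δ μ p q A N (2 * N + 6 - n) ∧ Av δ μ A := by
  classical
  have hirr : Irreducible δ := irreducible_of_smooth (by norm_num) hδ hsm
  have hμ0 : μ ≠ 0 := by
    rintro rfl
    exact hμδ (dvd_zero _)
  obtain ⟨e, g, h, hg, hh, hr, hgh⟩ := exists_pair_all hδ hirr hμ hμδ hsp
  have hrel : IsRelPrime μ δ := (hirr.isRelPrime_iff_not_dvd.mpr hμδ).symm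
  obtain ⟨S, hS, hSz⟩ := finite_reps hμ hδ hrel hirr.ne_zero
  have hpt : ∀ w : S, ∃ N₀ : ℕ, ∀ N, N₀ ≤ N → ∃ p q A : P3, NE δ μ p q A N (2 * N + 6 - n) ∧
      μ ∣ p * h - q * g ∧ eval w.1 A ≠ 0 := fun w =>
    exists_pt hδ hsm hμ hμ0 hg hh hr hgh (hS w.1 w.2).1 (hS w.1 w.2).2.2
  choose M hM using hpt
  refine ⟨Finset.univ.sup M, fun N hN => ?_⟩
  obtain ⟨p, q, A, h1, h2⟩ := g6_comb hδ hμ hμ0 hr hgh S fun w =>
    hM w N ((Finset.le_sup (Finset.mem_univ w)).trans hN)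
  refine ⟨p, q, A, h1, fun z hz hzμ hzδ hzA => ?_⟩
  obtain ⟨w, hw, c, hc, rfl⟩ := hSz z hz hzμ hzδ
  rw [Pool.Agent.Helper16.eval_smul_of_hom h1.hA] at hzA
  rcases mul_eq_zero.mp hzA with h3 | h3
  · exact hc (eq_zero_of_pow_eq_zero h3)
  · exact h2 ⟨w, hw⟩ h3

end Pool.Agent.Helper89.GC
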